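import Pool.Agent.Work.MP_80ff4e_al.Interface3

/-!
# MP_80ff4e_al: block BR (the two notions of branch group agree)
-/

set_option autoImplicit false

open Polynomial unitInterval

namespace PCF
namespace BR

theorem stmt_BR : Stmt_BR := by
  intro f t X _ S Λ hlen hpre hact
  -- levels
  have hlev : (S.LevTrans ↔ ∀ v w : Vertex f t, v.1.1 = w.1.1 → ∃ g ∈ IMG f t, g v = w) := by
    constructor
    · intro h v w hvw
      obtain ⟨g, hg⟩ := h (Λ.symm v) (Λ.symm w) (by
        rw [← hlen, ← hlen, Λ.apply_symm_apply, Λ.apply_symm_apply, hvw])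
      refine ⟨g.1, g.2, ?_⟩
      have := hact g (Λ.symm v)
      rw [hg, Λ.apply_symm_apply, Λ.apply_symm_apply] at this
      exact this.symm
    · intro h u v huv
      obtain ⟨g, hg, hgv⟩ := h (Λ u) (Λ v) (by rw [hlen, hlen, huv])
      refine ⟨⟨g, hg⟩, ?_⟩
      apply Λ.injective
      rw [hact]
      exact hgv
  -- rigid stabilisers
  have hrist : ∀ v : List X, (S.Rist v).map (IMG f t).subtype = rist (IMG f t) (Λ v) := by
    intro v
    ext g
    constructor
    · rintro ⟨k, hk, rfl⟩
      refine ⟨k.2, fun w hw => ?_⟩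
      have h1 : ¬ v <+: Λ.symm w := by rw [hpre, Λ.apply_symm_apply]; exact hw
      have h2 := hk (Λ.symm w) h1
      have h3 := hact k (Λ.symm w)
      rw [h2, Λ.apply_symm_apply] at h3
      exact h3.symm
    · rintro ⟨hg, hgw⟩
      refine ⟨⟨g, hg⟩, fun u hu => ?_, rfl⟩
      apply Λ.injective
      rw [hact]
      exact hgw _ (by rw [← hpre]; exact hu)
  -- suprema
  have hsup : ∀ n : ℕ, (⨆ v : {v : List X // v.length = n}, S.Rist v.1).map (IMG f t).subtype =
      ristLevel (IMG f t) n := by
    intro n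
    rw [Subgroup.map_iSup, ristLevel]
    simp_rw [hrist]
    apply le_antisymm
    · refine iSup_le fun v => ?_
      exact le_iSup (fun v : {v : Vertex f t // v.1.1 = n} => rist (IMG f t) v.1)
        ⟨Λ v.1, by rw [hlen]; exact v.2⟩
    · refine iSup_le fun v => ?_
      have := le_iSup (fun v : {v : List X // v.length = n} => rist (IMG f t) (Λ v.1))
        ⟨Λ.symm v.1, by rw [← hlen, Λ.apply_symm_apply]; exact v.2⟩
      simpa using this
  have hidx : ∀ n : ℕ, (⨆ v : {v : List X // v.length = n}, S.Rist v.1).FiniteIndex ↔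
      (ristLevel (IMG f t) n).relIndex (IMG f t) ≠ 0 := by
    intro n
    rw [Subgroup.finiteIndex_iff, ← hsup n, Subgroup.relIndex, Subgroup.subgroupOf,
      Subgroup.comap_map_eq_self_of_injective (IMG f t).subtype_injective]
  unfold SelfSim.Branch IsBranch
  rw [hlev]
  exact and_congr Iff.rfl (forall_congr' hidx)

end BR
end PCF
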