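import Pool.Agent.Work.MP_80ff4e_al_helper41.C2a

/-!
# MP_80ff4e_al: block C2
-/

set_option autoImplicit false

namespace PCF

namespace C2

variable {G X : Type} [Group G] {S : SelfSim G X}

open SelfSim
open scoped commutatorElement

/-- The words of length `n` over the orbit of `w₁`. -/
def InB (S : SelfSim G X) (H : Subgroup G) (w₁ : List X) (n : ℕ) (u : List X) : Prop :=
  u.length = n ∧ S.Orb H w₁ (u.take w₁.length)

/-- `H` has the stable level `n₁`. -/
def Stable (S : SelfSim G X) (H : Subgroup G) (n₁ : ℕ) : Prop :=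
  ∀ n ≥ n₁, ∀ u v : List X, u.length = n → v.length = n →
    S.Orb H (u.take n₁) (v.take n₁) → S.Orb H u v

section

variable {H : Subgroup G} {w₁ : List X} {n : ℕ}

lemma InB.orb (hst : Stable S H w₁.length) (hn : w₁.length ≤ n) {u v : List X}
    (hu : InB S H w₁ n u) (hv : InB S H w₁ n v) : S.Orb H u v :=
  hst n hn u v hu.1 hv.1 (hu.2.symm.trans hv.2)

lemma InB.wact {u : List X} (hu : InB S H w₁ n u) {h : G} (hh : h ∈ H) :
    InB S H w₁ n (S.wact h u) := by
  refine ⟨by simp [hu.1], ?_⟩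
  rw [S.wact_take]
  exact hu.2.trans (Orb.of_mem hh _)

lemma InB.wact' (hH : H.Normal) {u : List X} (hu : InB S H w₁ n u) {g : G}
    (hg : S.Orb H w₁ (S.wact g w₁)) : InB S H w₁ n (S.wact g u) := by
  refine ⟨by simp [hu.1], ?_⟩
  rw [S.wact_take]
  exact hg.trans (hu.2.map hH g)

lemma InB.take {u : List X} (hu : InB S H w₁ n u) {k : ℕ} (hk : w₁.length ≤ k) (hkn : k ≤ n) :
    InB S H w₁ k (u.take k) := by
  refine ⟨by rw [List.length_take, hu.1]; omega, ?_⟩
  rw [List.take_take, min_eq_left hk]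
  exact hu.2

lemma InB.append {w : List X} {k : ℕ} (hw : InB S H w₁ k w) (hk : w₁.length ≤ k) (v : List X) :
    InB S H w₁ (k + v.length) (w ++ v) := by
  refine ⟨by rw [List.length_append, hw.1], ?_⟩
  rw [List.take_append_of_le_length (by rw [hw.1]; exact hk)]
  exact hw.2

/-- `c` acts trivially on the `[H, H]`-orbits in `B_n`. -/
def Triv (S : SelfSim G X) (H : Subgroup G) (w₁ : List X) (n : ℕ) (c : G) : Prop :=
  ∀ u, InB S H w₁ n u → S.Orb ⁅H, H⁆ (S.wact c u) u

lemma Triv.mul {c c' : G} (hc : Triv S H w₁ n c) (hc' : Triv S H w₁ n c') (hcH : c' ∈ H) :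
    Triv S H w₁ n (c * c') := by
  intro u hu
  rw [S.wact_mul]
  exact (hc _ (hu.wact hcH)).trans (hc' u hu)

lemma Triv.inv {c : G} [hH : H.Normal] (hc : Triv S H w₁ n c) : Triv S H w₁ n c⁻¹ := by
  intro u hu
  have hN : (⁅H, H⁆ : Subgroup G).Normal := Subgroup.commutator_normal H H
  have h1 := (hc u hu).map hN c⁻¹
  rw [S.wact_inv_wact] at h1
  exact h1.symm

lemma Triv.conj {c g : G} (hH : H.Normal) (hc : Triv S H w₁ n c)
    (hg : S.Orb H w₁ (S.wact g w₁)) : Triv S H w₁ n (g * c * g⁻¹) := by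
  intro u hu
  have hN : (⁅H, H⁆ : Subgroup G).Normal := Subgroup.commutator_normal H H
  have hg' : S.Orb H w₁ (S.wact g⁻¹ w₁) := by
    have := hg.map hH g⁻¹
    rw [S.wact_inv_wact] at this
    exact this.symm
  have h1 := (hc _ (hu.wact' hH hg')).map hN g
  rw [S.wact_wact_inv] at h1
  rw [S.wact_mul, S.wact_mul]
  exact h1

/-- The centraliser of `A_{n,k}`. -/
def CB (S : SelfSim G X) (H : Subgroup G) (hH : H.Normal) (w₁ : List X) (k n : ℕ) :
    Subgroup G where
  carrier := {g | S.Orb H w₁ (S.wact g w₁) ∧ ∀ h ∈ H, Triv S H w₁ k h →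
    Triv S H w₁ n (g * h * g⁻¹ * h⁻¹)}
  one_mem' := by
    refine ⟨by simpa using Orb.refl _, fun h _ _ u _ => ?_⟩
    simpa using Orb.refl _
  mul_mem' := by
    rintro g₁ g₂ ⟨h1, h1'⟩ ⟨h2, h2'⟩
    refine ⟨?_, fun h hh hk => ?_⟩
    · rw [S.wact_mul]
      exact h1.trans (h2.map hH g₁)
    · have h3 := (h2' h hh hk).conj hH h1
      have h4 := h1' h hh hk
      have h5 : g₁ * g₂ * h * (g₁ * g₂)⁻¹ * h⁻¹ =
          (g₁ * (g₂ * h * g₂⁻¹ * h⁻¹) * g₁⁻¹) * (g₁ * h * g₁⁻¹ * h⁻¹) := by group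
      rw [h5]
      exact h3.mul h4 (H.mul_mem (hH.conj_mem h hh g₁) (H.inv_mem hh))
  inv_mem' := by
    rintro g ⟨h1, h1'⟩
    have h2 : S.Orb H w₁ (S.wact g⁻¹ w₁) := by
      have := h1.map hH g⁻¹
      rw [S.wact_inv_wact] at this
      exact this.symm
    refine ⟨h2, fun h hh hk => ?_⟩
    have h3 : g⁻¹ * h * g⁻¹⁻¹ * h⁻¹ = g⁻¹ * (g * h * g⁻¹ * h⁻¹)⁻¹ * g⁻¹⁻¹ := by group
    rw [h3]
    exact (h1' h hh hk).inv.conj hH h2

lemma mem_CB {hH : H.Normal} {k : ℕ} {g : G} : g ∈ CB S H hH w₁ k n ↔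
    S.Orb H w₁ (S.wact g w₁) ∧ ∀ h ∈ H, Triv S H w₁ k h → Triv S H w₁ n (g * h * g⁻¹ * h⁻¹) :=
  Iff.rfl

/-- The subgroup generated by the `K_w`, `w ∈ B_m`. -/
def RB (S : SelfSim G X) (H : Subgroup G) (w₁ : List X) (m : ℕ) : Subgroup G :=
  ⨆ w : {w : List X // InB S H w₁ m w}, S.K w.1

lemma K_le_RB {m : ℕ} {w : List X} (hw : InB S H w₁ m w) : S.K w ≤ RB S H w₁ m :=
  le_iSup (fun w : {w : List X // InB S H w₁ m w} => S.K w.1) ⟨w, hw⟩

lemma RB_mono [Nonempty X] {m m' : ℕ} (hm : w₁.length ≤ m) (hmm' : m ≤ m') :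
    RB S H w₁ m ≤ RB S H w₁ m' := by
  refine iSup_le fun w => ?_
  obtain ⟨v, hv⟩ := exists_word (X := X) (m' - m)
  refine (S.K_le_K_append w.1 v).trans (K_le_RB ?_)
  have := w.2.append hm v
  rwa [hv, Nat.add_sub_cancel' hmm'] at this

/-- (1) -/
lemma RB_le_CB [Nonempty X] (hH : H.Normal) (hst : Stable S H w₁.length) {k : ℕ}
    (hk : w₁.length ≤ k) (hkn : k ≤ n) : RB S H w₁ k ≤ CB S H hH w₁ k n := by
  have hN : (⁅H, H⁆ : Subgroup G).Normal := Subgroup.commutator_normal H H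
  refine iSup_le ?_
  rintro ⟨w, hw⟩ g hg
  have hgw : S.wact g w = w := (S.mem_K.1 hg).1
  rw [mem_CB]
  constructor
  · have h1 := hw.2.map hH g
    rw [← S.wact_take, hgw] at h1
    exact hw.2.trans h1.symm
  · intro h hh hhk u hu
    obtain ⟨v, hv⟩ := exists_word (X := X) (n - k)
    have hwv : InB S H w₁ n (w ++ v) := by
      have := hw.append hk v
      rwa [hv, Nat.add_sub_cancel' hkn] at this
    -- it is enough to look at `h (w v)`
    have h0 : S.Orb H (S.wact h (w ++ v)) u :=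
      (Orb.of_mem hh _).symm.trans (hwv.orb hst (hk.trans hkn) hu)
    refine F1 hH (H.mul_mem (hH.conj_mem h hh g) (H.inv_mem hh)) h0 ?_
    have h1 : S.wact (g * h * g⁻¹ * h⁻¹) (S.wact h (w ++ v)) = S.wact g (S.wact h (w ++ v)) := by
      rw [← S.wact_mul, inv_mul_cancel_right, S.wact_mul, S.wact_mul,
        wact_K ((S.K w).inv_mem hg)]
    rw [h1]
    -- `h (w v) ∼ w v''`
    have h2 : S.Orb ⁅H, H⁆ w ((S.wact h (w ++ v)).take w.length) := by
      rw [S.wact_take, List.take_append_of_le_length le_rfl, List.take_of_length_le le_rfl]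
      exact (hhk w hw).symm
    obtain ⟨v', hv', -⟩ := orb_append h2
    have h3 := hv'.map hN g
    rw [wact_K hg] at h3
    exact h3.trans hv'.symm

/-- (2) -/
lemma K_triv [Nonempty X] (hH : H.Normal) (hst : Stable S H w₁.length) {k m : ℕ}
    (hk : w₁.length ≤ k) (hkm : k ≤ m) (hmn : m ≤ n) (hR : RB S H w₁ m = RB S H w₁ k)
    {w : List X} (hw : InB S H w₁ m w) {g : G} (hg : g ∈ S.K w) {u : List X}
    (hu : InB S H w₁ n u) (huw : S.Orb ⁅H, H⁆ (w.take k) (u.take k)) :
    S.Orb ⁅H, H⁆ (S.wact g u) u := by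
  have hgC : g ∈ CB S H hH w₁ k n :=
    RB_le_CB hH hst hk (hkm.trans hmn) (hR ▸ K_le_RB hw hg)
  obtain ⟨v, hv⟩ := exists_word (X := X) (n - m)
  have hwv : InB S H w₁ n (w ++ v) := by
    have := hw.append (hk.trans hkm) v
    rwa [hv, Nat.add_sub_cancel' hmn] at this
  obtain ⟨h, hh, hhu⟩ := hwv.orb hst (by omega) hu
  have h1 : Triv S H w₁ k h := by
    intro w' hw'
    refine F1 hH hh ((hw.take hk hkm).orb hst hk hw') ?_
    have h2 : u.take k = S.wact h (w.take k) := by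
      rw [← hhu, S.wact_take, List.take_append_of_le_length (by rw [hw.1]; exact hkm)]
    rw [← h2]
    exact huw.symm
  have h3 := hgC.2 h hh h1 u hu
  have h4 : S.wact (g * h * g⁻¹ * h⁻¹) u = S.wact g u := by
    rw [← hhu, ← S.wact_mul, inv_mul_cancel_right, S.wact_mul, S.wact_mul,
        wact_K ((S.K w).inv_mem hg)]
  rwa [h4] at h3

/-- The subgroup generated by the `K_{wv}`, `|v| = j`. -/
def TT (S : SelfSim G X) (w : List X) (j : ℕ) : Subgroup G :=
  ⨆ v : {v : List X // v.length = j}, S.K (w ++ v.1)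

lemma TT_le_St (w : List X) (j : ℕ) : TT S w j ≤ S.St w := by
  refine iSup_le ?_
  rintro ⟨v, hv⟩ g hg
  exact wact_append_left S (S.mem_K.1 hg).1

/-- `TT S w j` contains the preimage of `R_j`. -/
lemma TT_finiteIndex [Finite X] [Nonempty X] (hS : S.SelfRep) (w : List X) (j : ℕ)
    (hR : (⨆ v : {v : List X // v.length = j}, S.K v.1).FiniteIndex) :
    (TT S w j).FiniteIndex := by
  have hsurj : Function.Surjective (S.secHom w) := hS.secHom_surjective w
  set Q := (TT S w j).subgroupOf (S.St w) with hQ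
  have h1 : (⨆ v : {v : List X // v.length = j}, S.K v.1) ≤ Q.map (S.secHom w) := by
    refine iSup_le ?_
    rintro ⟨v, hv⟩ g hg
    obtain ⟨⟨k, hk⟩, rfl⟩ := hsurj g
    refine ⟨⟨k, hk⟩, ?_, rfl⟩
    rw [hQ]
    show k ∈ TT S w j
    refine (le_iSup (fun v : {v : List X // v.length = j} => S.K (w ++ v.1)) ⟨v, hv⟩) ?_
    rw [mem_K]
    obtain ⟨h2, h3⟩ := S.mem_K.1 hg
    rw [mem_St] at hk
    simp only [secHom_apply] at h2 h3
    rw [S.wact_append, S.wsec_append, hk, h2, h3]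
    exact ⟨rfl, rfl⟩
  have h2 : (S.secHom w).ker ≤ Q := by
    rintro ⟨k, hk⟩ hk'
    rw [hQ]
    show k ∈ TT S w j
    obtain ⟨v, hv⟩ := exists_word (X := X) j
    refine (le_iSup (fun v : {v : List X // v.length = j} => S.K (w ++ v.1)) ⟨v, hv⟩) ?_
    refine S.K_le_K_append w v ?_
    rw [mem_K]
    exact ⟨hk, hk'⟩
  have h3 : (Q.map (S.secHom w)).FiniteIndex := Subgroup.finiteIndex_of_le h1
  have h4 : Q.FiniteIndex := by
    have h5 : (Q.map (S.secHom w)).comap (S.secHom w) = Q := by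
      rw [Subgroup.comap_map_eq, sup_eq_left]
      exact h2
    rw [← h5, Subgroup.finiteIndex_iff, Subgroup.index_comap_of_surjective _ hsurj]
    exact h3.index_ne_zero
  have h6 : (S.St w).FiniteIndex := S.St_finiteIndex w
  have h7 : Q.map (S.St w).subtype = TT S w j := by
    rw [hQ, Subgroup.subgroupOf_map_subtype, inf_eq_left]
    exact TT_le_St w j
  rw [← h7, Subgroup.finiteIndex_iff, Subgroup.index_map_subtype]
  exact mul_ne_zero h4.index_ne_zero h6.index_ne_zero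

/-- The groups `RB` stabilise. -/
lemma exists_RB_stable [Finite X] [Nonempty X] (hS : S.SelfRep) {j : ℕ}
    (hR : (⨆ v : {v : List X // v.length = j}, S.K v.1).FiniteIndex) (w₁ : List X) :
    ∃ k ≥ w₁.length, ∀ m ≥ k, RB S H w₁ m = RB S H w₁ k := by
  have h0 : ∀ m, w₁.length + j ≤ m → (RB S H w₁ m).FiniteIndex := by
    intro m hm
    have h1 := TT_finiteIndex hS w₁ j hR
    have h2 : TT S w₁ j ≤ RB S H w₁ (w₁.length + j) := by
      refine iSup_le ?_
      rintro ⟨v, rfl⟩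
      refine K_le_RB ⟨by simp, ?_⟩
      rw [List.take_append_of_le_length le_rfl, List.take_of_length_le le_rfl]
      exact Orb.refl _
    have h3 := h2.trans (RB_mono (S := S) (H := H) (w₁ := w₁) (by omega) hm)
    exact Subgroup.finiteIndex_of_le h3
  -- choose the minimal index
  have hex : ∃ i, ∃ m, w₁.length + j ≤ m ∧ (RB S H w₁ m).index = i := ⟨_, _, le_rfl, rfl⟩
  classical
  obtain ⟨k, hk, hki⟩ := Nat.find_spec hex
  refine ⟨k, by omega, fun m hm => ?_⟩
  have h1 : Nat.find hex ≤ (RB S H w₁ m).index := Nat.find_min' hex ⟨m, by omega, rfl⟩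
  have h2 : RB S H w₁ k ≤ RB S H w₁ m := RB_mono (by omega) hm
  have h3 := Subgroup.relIndex_mul_index h2
  have h4 : (RB S H w₁ m).index ≠ 0 := (h0 m (by omega)).index_ne_zero
  have h5 : (RB S H w₁ k).index ≠ 0 := (h0 k hk).index_ne_zero
  have h6 : (RB S H w₁ k).relIndex (RB S H w₁ m) = 1 := by
    rw [hki] at h3
    have h7 : (RB S H w₁ k).relIndex (RB S H w₁ m) ≠ 0 := by
      intro h
      rw [h, zero_mul] at h3
      rw [hki, ← h3] at h5
      exact h5 rfl
    have h8 : (RB S H w₁ k).relIndex (RB S H w₁ m) * (RB S H w₁ m).index ≤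
        1 * (RB S H w₁ m).index := by rw [h3, one_mul]; exact h1
    have := Nat.le_of_mul_le_mul_right h8 (Nat.pos_of_ne_zero h4)
    omega
  exact le_antisymm (Subgroup.relIndex_eq_one.1 h6) h2

/-- (3) -/
lemma TT_triv [Nonempty X] (hH : H.Normal) (hst : Stable S H w₁.length) {k j : ℕ}
    (hk : w₁.length ≤ k) (hn : k + j ≤ n) (hR : ∀ m ≥ k, RB S H w₁ m = RB S H w₁ k)
    {w₀ : List X} (hw₀ : InB S H w₁ k w₀) {v : List X} (hv : v.length = n - k) {g : G}
    (hg : g ∈ TT S w₀ j) : S.Orb ⁅H, H⁆ (S.wact g (w₀ ++ v)) (w₀ ++ v) := by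
  have hN : (⁅H, H⁆ : Subgroup G).Normal := Subgroup.commutator_normal H H
  have hwv : InB S H w₁ n (w₀ ++ v) := by
    have := hw₀.append hk v
    rwa [hv, Nat.add_sub_cancel' (by omega)] at this
  refine Subgroup.iSup_induction (fun v : {v : List X // v.length = j} => S.K (w₀ ++ v.1))
    (C := fun g => S.Orb ⁅H, H⁆ (S.wact g (w₀ ++ v)) (w₀ ++ v)) hg ?_ ?_ ?_
  · rintro ⟨v', hv'⟩ g hg
    have h1 : InB S H w₁ (k + j) (w₀ ++ v') := by
      have := hw₀.append hk v'
      rwa [hv'] at this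
    refine K_triv hH hst hk (Nat.le_add_right k j) hn (hR _ (Nat.le_add_right k j)) h1 hg hwv ?_
    rw [List.take_append_of_le_length (by rw [hw₀.1]),
      List.take_append_of_le_length (by rw [hw₀.1])]
    exact Orb.refl _
  · simpa using Orb.refl _
  · intro g g' h1 h2
    rw [S.wact_mul]
    exact (h2.map hN g).trans h1

end

theorem stmt_C2 : Stmt_C2 := by
  intro G X _ _ S hC H hH hop
  classical
  have hX : Nonempty X := Fintype.card_pos_iff.1 (by have := hC.two_le; omega)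
  obtain ⟨n₁, hst⟩ := exists_stable hop
  obtain ⟨j, hj⟩ := hC.rfin
  have hN : (⁅H, H⁆ : Subgroup G).Normal := Subgroup.commutator_normal H H
  -- a uniform `k`
  have h1 : ∀ w₁ : List X, ∃ k ≥ w₁.length, ∀ m ≥ k, RB S H w₁ m = RB S H w₁ k :=
    fun w₁ => exists_RB_stable hC.selfrep hj w₁
  choose κ hκ hκ' using h1
  set k := (lev X n₁).sup κ + n₁ with hk
  have hkR : ∀ w₁ : List X, w₁.length = n₁ → ∀ m ≥ k, RB S H w₁ m = RB S H w₁ k := by
    intro w₁ hw₁ m hm
    have h2 : κ w₁ ≤ (lev X n₁).sup κ := Finset.le_sup (mem_lev.2 hw₁)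
    rw [hκ' w₁ m (by omega), hκ' w₁ k (by omega)]
  -- coset representatives
  have h2 : ∀ w₀ : List X, ∃ C : Finset G, ∀ h ∈ S.St w₀, ∃ c ∈ C, c⁻¹ * h ∈ TT S w₀ j := by
    intro w₀
    have h3 := TT_finiteIndex hC.selfrep w₀ j hj
    have h4 : Finite (G ⧸ TT S w₀ j) := Subgroup.finite_quotient_of_finiteIndex
    have h5 : Fintype (G ⧸ TT S w₀ j) := Fintype.ofFinite _
    refine ⟨Finset.univ.image (Quotient.out : G ⧸ TT S w₀ j → G), fun h _ =>
      ⟨_, Finset.mem_image_of_mem _ (Finset.mem_univ (QuotientGroup.mk h)), ?_⟩⟩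
    rw [← QuotientGroup.eq]
    exact QuotientGroup.out_eq' _
  choose C hCr using h2
  refine ⟨(∑ w₀ ∈ lev X k, (C w₀).card) + (∑ i ∈ Finset.range (k + j), (lev X i).card),
    fun n => ?_⟩
  rcases lt_or_ge n (k + j) with hn | hn
  · refine ⟨lev X n, ?_, fun w hw => ⟨w, mem_lev.2 hw, 1, Subgroup.one_mem _, by simp⟩⟩
    have := Finset.single_le_sum (f := fun i => (lev X i).card) (fun i _ => Nat.zero_le _)
      (Finset.mem_range.2 hn)
    omega
  · obtain ⟨v₀, hv₀⟩ := exists_word (X := X) (n - k)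
    refine ⟨(lev X k).biUnion fun w₀ => (C w₀).image fun c => S.wact c (w₀ ++ v₀), ?_, ?_⟩
    · refine (Finset.card_biUnion_le).trans ((Finset.sum_le_sum fun w₀ _ =>
        Finset.card_image_le).trans (Nat.le_add_right _ _))
    · intro w hw
      set w₀ := w.take k with hw₀
      set v := w.drop k with hv
      have hwv : w₀ ++ v = w := List.take_append_drop k w
      have hlw₀ : w₀.length = k := by rw [hw₀, List.length_take]; omega
      have hlv : v.length = n - k := by rw [hv, List.length_drop]; omega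
      have hn₁ : n₁ ≤ k := by omega
      -- `w₀ v₀` and `w` are in one orbit of `H`
      have h3 : S.Orb H (w₀ ++ v₀) (w₀ ++ v) := by
        apply hst n (by omega) _ _ (by rw [List.length_append]; omega)
          (by rw [List.length_append]; omega)
        rw [List.take_append_of_le_length (by omega), List.take_append_of_le_length (by omega)]
        exact Orb.refl _
      obtain ⟨h, hh, hhw⟩ := h3
      have h4 : h ∈ S.St w₀ := by
        rw [S.wact_append] at hhw
        exact (List.append_inj hhw (by simp)).1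
      obtain ⟨c, hc, hch⟩ := hCr w₀ h h4
      refine ⟨S.wact c (w₀ ++ v₀), Finset.mem_biUnion.2 ⟨w₀, mem_lev.2 hlw₀,
        Finset.mem_image_of_mem _ hc⟩, ?_⟩
      have h5 : (w₀.take n₁).length = n₁ := by rw [List.length_take]; omega
      have h6 : InB S H (w₀.take n₁) k w₀ := ⟨hlw₀, by rw [h5]; exact Orb.refl _⟩
      have h7 := TT_triv (w₁ := w₀.take n₁) hH (by rw [h5]; exact hst) (by omega) hn
        (hkR _ h5) h6 hv₀ hch
      have h8 := h7.map hN c
      rw [← S.wact_mul, mul_inv_cancel_left, hhw, hwv] at h8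
      exact h8.symm

end C2

theorem stmt_C2 : Stmt_C2 := C2.stmt_C2

end PCF
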