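import Pool.Agent.Work.MP_80ff4e_al_helper41.C5a

/-!
# MP_80ff4e_al: block C5
-/

set_option autoImplicit false

namespace PCF

namespace C5

variable {G X : Type} [Group G]

open SelfSim
open scoped commutatorElement

/-- The words `c` of length `n` with `InU c w`. -/
def US (S : SelfSim G X) (n : ℕ) (w : List X) : Set (List X) := {c | c.length = n ∧ InU S c w}

/-- The words `c'` of the length of `c` with `InU c' w` for some extension `w` of `c`. -/
def Cn (S : SelfSim G X) (c : List X) : Set (List X) :=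
  {c' | c'.length = c.length ∧ ∃ u, InU S c' (c ++ u)}

variable {S : SelfSim G X}

lemma lev_finite [Finite X] (n : ℕ) {T : Set (List X)} (hT : ∀ c ∈ T, c.length = n) :
    T.Finite := by
  have := Fintype.ofFinite X
  refine ((lev X n).finite_toSet).subset fun c hc => ?_
  exact Finset.mem_coe.2 (mem_lev.2 (hT c hc))

lemma US_finite [Finite X] (n : ℕ) (w : List X) : (US S n w).Finite :=
  lev_finite n fun _ hc => hc.1

lemma Cn_finite [Finite X] (c : List X) : (Cn S c).Finite :=
  lev_finite c.length fun _ hc => hc.1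

lemma US_map (n : ℕ) (w : List X) (g : G) : US S n (S.wact g w) = S.wact g '' US S n w := by
  ext c
  constructor
  · rintro ⟨h1, h2⟩
    refine ⟨S.wact g⁻¹ c, ⟨by simp [h1], ?_⟩, by simp⟩
    have := h2.map g⁻¹
    simpa using this
  · rintro ⟨c, ⟨h1, h2⟩, rfl⟩
    exact ⟨by simp [h1], h2.map g⟩

lemma US_append (n : ℕ) (w u : List X) : US S n w ⊆ US S n (w ++ u) :=
  fun _ hc => ⟨hc.1, hc.2.append u⟩

lemma US_ncard (hS : Good S) (n : ℕ) {w w' : List X} (h : w.length = w'.length) :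
    (US S n w).ncard = (US S n w').ncard := by
  obtain ⟨g, rfl⟩ := hS.lev w w' h
  rw [US_map, Set.ncard_image_of_injective _ (S.wact_injective g)]

/-- The cardinality of `US n w` is constant for long words `w`. -/
lemma exists_stab [Finite X] (hS : Good S) (n : ℕ) : ∃ m, ∀ w w' : List X, m ≤ w.length →
    m ≤ w'.length → (US S n w).ncard = (US S n w').ncard := by
  have hF := Fintype.ofFinite X
  obtain ⟨w₀, hw₀⟩ : ∃ w₀ : List X, ∀ w, (US S n w).ncard ≤ (US S n w₀).ncard := by
    by_contra hcon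
    push Not at hcon
    have h1 : ∀ m : ℕ, ∃ w : List X, m ≤ (US S n w).ncard := by
      intro m
      induction m with
      | zero => exact ⟨[], Nat.zero_le _⟩
      | succ m ih =>
        obtain ⟨w, hw⟩ := ih
        obtain ⟨w', hw'⟩ := hcon w
        exact ⟨w', by omega⟩
    obtain ⟨w, hw⟩ := h1 ((lev X n).card + 1)
    have h2 : (US S n w).ncard ≤ (lev X n).card := by
      rw [← Set.ncard_coe_finset]
      exact Set.ncard_le_ncard (fun c hc => Finset.mem_coe.2 (mem_lev.2 hc.1))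
        (Finset.finite_toSet _)
    omega
  have h1 : ∀ w : List X, w₀.length ≤ w.length → (US S n w).ncard = (US S n w₀).ncard := by
    intro w hw
    refine le_antisymm (hw₀ w) ?_
    have h2 : w₀.length = (w.take w₀.length).length := by rw [List.length_take]; omega
    rw [US_ncard hS n h2]
    conv_rhs => rw [← List.take_append_drop w₀.length w]
    exact Set.ncard_le_ncard (US_append n _ _) (US_finite n _)
  exact ⟨w₀.length, fun w w' hw hw' => by rw [h1 w hw, h1 w' hw']⟩

/-- Conjugation of the extensions of a word. -/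
def Conj (S : SelfSim G X) : Prop := ∀ c u u' : List X, u.length = u'.length →
  ∃ g ∈ S.LSt c.length, S.wact g (c ++ u) = c ++ u'

lemma conj_of_core [Fintype X] (hC : Core S) : Conj S := by
  obtain ⟨τ, hτ⟩ := hC.odo
  intro c u u' hu
  obtain ⟨j, hj⟩ := hτ (c ++ u) (c ++ u') (by simp [hu])
  refine ⟨τ ^ j, ?_, hj⟩
  have h1 : S.wact (τ ^ j) c = c := by
    rw [S.wact_append] at hj
    exact (List.append_inj hj (by simp)).1
  intro v hv
  obtain ⟨i, rfl⟩ := hτ c v hv.symm
  rw [← S.wact_mul, ← pow_add, add_comm, pow_add, S.wact_mul, h1]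

lemma mem_Cn_iff [Finite X] [Nonempty X] (hS : Good S) (hconj : Conj S) (n : ℕ) :
    ∃ m, ∀ c u : List X, c.length = n → m ≤ (c ++ u).length → Cn S c = US S n (c ++ u) := by
  obtain ⟨m, hm⟩ := exists_stab hS n
  refine ⟨m, fun c u hc hcu => ?_⟩
  ext c'
  constructor
  · rintro ⟨h1, u', h2⟩
    refine ⟨h1.trans hc, ?_⟩
    -- extend both to the same length
    obtain ⟨v, hv⟩ := exists_word (X := X) u.length
    obtain ⟨v', hv'⟩ := exists_word (X := X) u'.length
    have h3 := h2.append v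
    rw [List.append_assoc] at h3
    obtain ⟨g, hg, hgw⟩ := hconj c (u' ++ v) (u ++ v') (by
      rw [List.length_append, List.length_append, hv, hv']; omega)
    have h4 := h3.map g
    rw [hgw, hg c' h1, ← List.append_assoc] at h4
    have h5 : US S n (c ++ u) = US S n ((c ++ u) ++ v') := by
      apply Set.eq_of_subset_of_ncard_le (US_append n _ _) _ (US_finite n _)
      rw [hm ((c ++ u) ++ v') (c ++ u) (by rw [List.length_append]; omega) hcu]
    have h6 : c' ∈ US S n ((c ++ u) ++ v') := ⟨h1.trans hc, h4⟩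
    rw [← h5] at h6
    exact h6.2
  · rintro ⟨h1, h2⟩
    exact ⟨h1.trans hc.symm, u, h2⟩

lemma Cn_refl (c : List X) : c ∈ Cn S c := ⟨rfl, [], by rw [List.append_nil]; exact InU.refl c⟩

lemma Cn_map {c c' : List X} (h : c' ∈ Cn S c) (g : G) : S.wact g c' ∈ Cn S (S.wact g c) := by
  obtain ⟨h1, u, h2⟩ := h
  refine ⟨by simp [h1], S.wact (S.wsec g c) u, ?_⟩
  have := h2.map g
  rwa [S.wact_append] at this

lemma Cn_image (c : List X) (g : G) : Cn S (S.wact g c) = S.wact g '' Cn S c := by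
  ext c'
  constructor
  · intro h
    refine ⟨S.wact g⁻¹ c', ?_, by simp⟩
    have := Cn_map h g⁻¹
    rwa [S.wact_inv_wact] at this
  · rintro ⟨c', h, rfl⟩
    exact Cn_map h g

lemma Cn_ncard (hS : Good S) {c c' : List X} (h : c.length = c'.length) :
    (Cn S c).ncard = (Cn S c').ncard := by
  obtain ⟨g, rfl⟩ := hS.lev c c' h
  rw [Cn_image, Set.ncard_image_of_injective _ (S.wact_injective g)]

/-- Claim 1. -/
lemma Cn_snoc [Fintype X] (hS : Good S) (hconj : Conj S)
    (hdeep : ∀ n : ℕ, ∃ m : ℕ, ∀ w : List X, m ≤ w.length → S.secSub (S.LSt n) w = ⊤)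
    [Nonempty X] {c c' : List X} (h : c' ∈ Cn S c) (x : X) :
    ∃ y : X, c' ++ [y] ∈ Cn S (c ++ [x]) := by
  classical
  obtain ⟨m, hm⟩ := mem_Cn_iff hS hconj c.length
  obtain ⟨m', hm'⟩ := hdeep (c.length + 1)
  obtain ⟨u, hu⟩ := exists_word (X := X) (m + m')
  set w := c ++ ([x] ++ u) with hw
  have hlw : w.length = c.length + 1 + (m + m') := by
    rw [hw, List.length_append, List.length_append, hu]
    simp
    omega
  have h1 : InU S c' w := by
    have h2 := hm c ([x] ++ u) rfl (by rw [← hw]; omega)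
    rw [h2] at h
    exact h.2
  by_contra hcon
  push Not at hcon
  have h2 : ∀ y : X, ¬ InU S (c' ++ [y]) w := by
    intro y hy
    apply hcon y
    refine ⟨by simp [h.1], u, ?_⟩
    rw [List.append_assoc]
    exact hy
  obtain ⟨g, hg, hgY, hgw, hgw'⟩ := exists_common hS (n := c.length + 1) (w := w)
    (hm' w (by omega)) (Finset.univ.image fun y : X => c' ++ [y])
    (by
      intro v hv
      obtain ⟨y, -, rfl⟩ := Finset.mem_image.1 hv
      simp [h.1])
    (by
      intro v hv
      obtain ⟨y, -, rfl⟩ := Finset.mem_image.1 hv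
      exact h2 y)
  have h3 : ∀ y : X, g ∈ S.K (c' ++ [y]) := fun y =>
    hgY _ (Finset.mem_image_of_mem _ (Finset.mem_univ y))
  have hgc' : S.wact g c' = c' := S.LSt_antitone (Nat.le_succ _) hg c' h.1
  have h4 : S.wsec g c' = 1 := by
    apply hS.faithful.eq_one (n := 1)
    · intro v hv
      obtain ⟨y, rfl⟩ := List.length_eq_one_iff.1 hv
      exact S.wact_append_right (S.mem_K.1 (h3 y)).1
    · intro v hv
      obtain ⟨y, rfl⟩ := List.length_eq_one_iff.1 hv
      rw [← S.wsec_append]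
      exact (S.mem_K.1 (h3 y)).2
  exact hgw' (S.mem_K.1 (h1 g (S.mem_K.2 ⟨hgc', h4⟩) hgw)).2

section main

variable [Fintype X] [Nonempty X] (hS : Good S) (hconj : Conj S)
    (hdeep : ∀ n : ℕ, ∃ m : ℕ, ∀ w : List X, m ≤ w.length → S.secSub (S.LSt n) w = ⊤)
include hS hconj hdeep

lemma Cn_append {c c' : List X} (h : c' ∈ Cn S c) (v : List X) :
    ∃ v' : List X, v'.length = v.length ∧ c' ++ v' ∈ Cn S (c ++ v) := by
  induction v generalizing c c' with
  | nil => exact ⟨[], rfl, by simpa using h⟩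
  | cons x v ih =>
    obtain ⟨y, hy⟩ := Cn_snoc hS hconj hdeep h x
    obtain ⟨v', hv', h'⟩ := ih hy
    refine ⟨y :: v', by simp [hv'], ?_⟩
    simpa using h'

/-- Claim 2. -/
lemma Cn_trans {c c' c'' : List X} (h : c' ∈ Cn S c) (h' : c'' ∈ Cn S c') : c'' ∈ Cn S c := by
  obtain ⟨m, hm⟩ := mem_Cn_iff hS hconj c'.length
  obtain ⟨u, hu⟩ := exists_word (X := X) m
  obtain ⟨v, hv, hcv⟩ := Cn_append hS hconj hdeep h u
  obtain ⟨-, u', hu'⟩ := hcv
  have h1 : InU S c'' (c' ++ v) := by
    have h2 := hm c' v rfl (by rw [List.length_append]; omega)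
    rw [h2] at h'
    exact h'.2
  refine ⟨h'.1.trans h.1, u ++ u', ?_⟩
  rw [← List.append_assoc]
  refine InU.of_fin hS (M' := S.St (c' ++ v)) (S.St_finiteIndex _) ?_
  intro g hg hg' hgw
  exact hu' g (h1 g hg hg') hgw

lemma Cn_eq {c c' : List X} (h : c' ∈ Cn S c) : Cn S c' = Cn S c := by
  apply Set.eq_of_subset_of_ncard_le (fun c'' hc'' => Cn_trans hS hconj hdeep h hc'')
    (le_of_eq (Cn_ncard hS h.1.symm)) (Cn_finite c)

lemma Cn_symm {c c' : List X} (h : c' ∈ Cn S c) : c ∈ Cn S c' := by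
  rw [Cn_eq hS hconj hdeep h]
  exact Cn_refl c

/-- Claim 3. -/
lemma K_inter {c c' : List X} (h : c' ∈ Cn S c) {g : G} (hg : g ∈ S.K c)
    (hgc' : S.wact g c' = c') : g ∈ S.K c' := by
  obtain ⟨m, hm⟩ := mem_Cn_iff hS hconj c'.length
  have h1 := Cn_symm hS hconj hdeep h
  refine InU.of_fin hS (c := c) (w := c') (M' := S.LSt (c'.length + m))
    (S.LSt_finiteIndex _) ?_ g hg hgc'
  intro k hk hkM hkc'
  refine S.mem_K.2 ⟨hkc', ?_⟩
  have h2 : ∀ u : List X, u.length = m → k ∈ S.K (c' ++ u) := by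
    intro u hu
    have h3 := hm c' u rfl (by rw [List.length_append]; omega)
    rw [h3] at h1
    exact h1.2 k hk (hkM _ (by rw [List.length_append, hu]))
  apply hS.faithful.eq_one (n := m)
  · intro v hv
    exact S.wact_append_right (S.mem_K.1 (h2 v hv)).1
  · intro v hv
    rw [← S.wsec_append]
    exact (S.mem_K.1 (h2 v hv)).2

omit hconj hdeep [Fintype X] [Nonempty X] in
/-- Claim 4. -/
lemma InU_cons (x : X) (c w : List X) : InU S (x :: c) (x :: w) ↔ InU S c w := by
  constructor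
  · intro h k hk hkw
    obtain ⟨g, hg1, hg2⟩ := hS.selfrep x k
    have h1 : g ∈ S.K (x :: c) := by
      obtain ⟨h2, h3⟩ := S.mem_K.1 hk
      rw [S.mem_K, S.wact_cons, S.wsec_cons, hg1, hg2, h2]
      exact ⟨rfl, h3⟩
    have h4 := h g h1 (by rw [S.wact_cons, hg1, hg2, hkw])
    obtain ⟨h5, h6⟩ := S.mem_K.1 h4
    rw [S.wsec_cons, hg2] at h6
    exact S.mem_K.2 ⟨hkw, h6⟩
  · intro h g hg hgw
    obtain ⟨h1, h2⟩ := S.mem_K.1 hg
    rw [S.wact_cons] at h1 hgw
    rw [S.wsec_cons] at h2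
    have h3 := h (S.sec g x) (S.mem_K.2 ⟨(List.cons.inj h1).2, h2⟩) (List.cons.inj hgw).2
    refine S.mem_K.2 ⟨?_, ?_⟩
    · rw [S.wact_cons]
      exact hgw
    · rw [S.wsec_cons]
      exact (S.mem_K.1 h3).2

omit hconj hdeep [Fintype X] [Nonempty X] in
lemma Cn_cons (x : X) {c c' : List X} : x :: c' ∈ Cn S (x :: c) ↔ c' ∈ Cn S c := by
  constructor
  · rintro ⟨h1, u, h2⟩
    refine ⟨by simpa using h1, u, ?_⟩
    rw [List.cons_append, InU_cons hS] at h2
    exact h2
  · rintro ⟨h1, u, h2⟩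
    refine ⟨by simpa using h1, u, ?_⟩
    rw [List.cons_append, InU_cons hS]
    exact h2

omit hconj hdeep [Fintype X] [Nonempty X] hS in
lemma Cn_head {x y : X} {c c' : List X} (h : y :: c' ∈ Cn S (x :: c)) : [y] ∈ Cn S [x] := by
  obtain ⟨h1, u, h2⟩ := h
  refine ⟨rfl, c ++ u, ?_⟩
  have h3 : InU S ([y] ++ c') (x :: c ++ u) := h2
  have h4 := h3.of_append
  simpa using h4

/-- If `C_1` is trivial then all `C_n` are. -/
lemma Cn_trivial (h1 : ∀ x : X, Cn S [x] = {[x]}) (c : List X) : Cn S c = {c} := by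
  induction c with
  | nil =>
    ext c'
    constructor
    · rintro ⟨h2, -⟩
      exact List.length_eq_zero_iff.1 h2
    · rintro rfl
      exact Cn_refl _
  | cons x c ih =>
    ext c'
    constructor
    · intro h
      cases c' with
      | nil =>
        have := h.1
        simp at this
      | cons y c' =>
        have h2 := Cn_head h
        rw [h1 x] at h2
        have h3 : y = x := by simpa using h2
        subst h3
        rw [Cn_cons hS, ih] at h
        rw [Set.mem_singleton_iff] at h ⊢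
        rw [h]
    · rintro rfl
      exact Cn_refl _

/-- If `C_1` is not trivial then the `C_n` are unbounded. -/
lemma Cn_large {x y : X} (hxy : x ≠ y) (h : [y] ∈ Cn S [x]) (n : ℕ) :
    ∃ c : List X, n ≤ (Cn S c).ncard := by
  induction n with
  | zero => exact ⟨[], Nat.zero_le _⟩
  | succ n ih =>
    obtain ⟨c, hc⟩ := ih
    refine ⟨x :: c, ?_⟩
    have h1 : (List.cons x) '' Cn S c ⊆ Cn S (x :: c) := by
      rintro _ ⟨c', hc', rfl⟩
      exact (Cn_cons hS x).2 hc'
    obtain ⟨v', hv', hy⟩ := Cn_append hS hconj hdeep h c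
    have h2 : insert (y :: v') ((List.cons x) '' Cn S c) ⊆ Cn S (x :: c) :=
      Set.insert_subset (by simpa using hy) h1
    have h3 : y :: v' ∉ (List.cons x) '' Cn S c := by
      rintro ⟨c', -, hc'⟩
      exact hxy (List.cons.inj hc').1
    have h4 := Set.ncard_le_ncard h2 (Cn_finite _)
    rw [Set.ncard_insert_of_notMem h3 ((Cn_finite c).image _),
      Set.ncard_image_of_injective _ (List.cons_injective)] at h4
    omega

omit hconj hdeep [Fintype X] [Nonempty X] hS in
lemma der_secSub_le (A : Subgroup G) (w : List X) (r : ℕ) :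
    der (S.secSub A w) r ≤ S.secSub (der A r) w := by
  induction r with
  | zero => exact le_rfl
  | succ r ih =>
    refine (Subgroup.commutator_mono ih ih).trans (comm_secSub_le ?_)
    intro a ha b hb _ _
    exact Subgroup.commutator_mem_commutator ha hb

/-- The case of large `C_n` is impossible. -/
lemma Cn_small {β : ℕ} (hblk : ∀ (n : ℕ) (B : Set (List X)), S.IsBlk n B → β ≤ B.ncard →
    der (S.StB B) 2 ≤ ⨆ w : B, S.K w.1)
    (hder : ∀ J : Subgroup G, J.FiniteIndex → ∀ r, der J r ≠ ⊥) (c : List X) :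
    (Cn S c).ncard < β := by
  by_contra hcon
  push Not at hcon
  set B := Cn S c with hB
  have hmem : ∀ u ∈ B, Cn S u = B := fun u hu => Cn_eq hS hconj hdeep hu
  have hblkB : S.IsBlk c.length B := by
    refine ⟨⟨c, Cn_refl c⟩, fun w hw => hw.1, ?_⟩
    intro g u hu hgu v hv
    have h1 := Cn_map (c := u) (c' := v) (by rw [hmem u hu]; exact hv) g
    rwa [hmem _ hgu] at h1
  have h1 := hblk _ B hblkB hcon
  have hfinB : Finite B := (Cn_finite c).to_subtype
  set R := ⨆ w : B, S.K w.1 with hR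
  have hle : R ≤ S.StB B := by
    refine iSup_le ?_
    rintro ⟨w, hw⟩ g hg
    have hgw : S.wact g w = w := (S.mem_K.1 hg).1
    have h2 : ∀ k : G, S.wact k w = w → ∀ v ∈ B, S.wact k v ∈ B := fun k hk v hv =>
      hblkB.2.2 k w hw (by rw [hk]; exact hw) v hv
    rw [S.mem_StB]
    intro v
    refine ⟨fun hv => ?_, h2 g hgw v⟩
    have h3 := h2 g⁻¹ (by
      conv_lhs => rw [← hgw]
      exact S.wact_inv_wact g w) _ hv
    rwa [S.wact_inv_wact] at h3
  have hconjR : ∀ q ∈ S.StB B, ∀ a ∈ R, q * a * q⁻¹ ∈ R := by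
    intro q hq a ha
    have h2 : R.map (MulAut.conj q).toMonoidHom ≤ R := by
      rw [hR, Subgroup.map_iSup]
      refine iSup_le ?_
      rintro ⟨w, hw⟩
      rw [S.map_conj_K]
      exact le_iSup (fun w : B => S.K w.1) ⟨S.wact q w, (S.mem_StB.1 hq w).2 hw⟩
    exact h2 ⟨a, ha, rfl⟩
  have hD1 := stmt_D1 G B (fun w => S.K w.1) (S.LSt c.length) inferInstance
    (S.LSt_finiteIndex _) (by
      intro g hg w
      refine ⟨⟨S.wact g w.1, (S.mem_StB.1 (hle hg) w.1).2 w.2⟩, ?_⟩
      exact S.map_conj_K w.1 g)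
  -- `R_B ∩ St(c) ⊆ K_c`
  have hLStB : S.LSt c.length ≤ S.StB B := by
    intro g hg
    rw [S.mem_StB]
    intro v
    constructor
    · intro hv
      have h2 : v.length = c.length := by simpa using hv.1
      rwa [hg v h2] at hv
    · intro hv
      rw [hg v hv.1]
      exact hv
  have hfi : (S.StB B).FiniteIndex := by
    have := S.LSt_finiteIndex (X := X) c.length
    exact Subgroup.finiteIndex_of_le hLStB
  have h2 := fin_crit hS (A := R) (Q := S.StB B) (M' := ⨆ w : B, S.K w.1 ⊓ S.LSt c.length)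
    (w := c) hfi hconjR hD1 (by
      intro g _ hg _
      have h3 : (⨆ w : B, S.K w.1 ⊓ S.LSt c.length) ≤ S.K c := by
        refine iSup_le ?_
        rintro ⟨w, hw⟩ k ⟨hk1, hk2⟩
        exact K_inter hS hconj hdeep (c := w) (c' := c) (Cn_symm hS hconj hdeep hw) hk1
          (hk2 c rfl)
      exact h3 hg)
  apply hder (S.secSub (S.StB B) c) (hS.selfrep.secSub_finiteIndex hfi c) 2
  rw [eq_bot_iff]
  refine (der_secSub_le _ _ _).trans ?_
  intro x hx
  obtain ⟨g, hg, hgc, rfl⟩ := S.mem_secSub.1 hx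
  exact (S.mem_K.1 (h2 g (h1 hg) hgc)).2

end main

end C5

open C5 SelfSim in
/-- BLOCK C5 -/
theorem stmt_C5 (hC3 : Stmt_C3) (hC4 : Stmt_C4) : Stmt_C5 := by
  intro G X _ _ S hC n
  classical
  have hX : Nonempty X := Fintype.card_pos_iff.1 (by have := hC.two_le; omega)
  obtain ⟨hC3', hder⟩ := hC3 G X S hC
  have hG : Nontrivial G := by
    by_contra hcon
    rw [not_nontrivial_iff_subsingleton] at hcon
    exact hder ⊤ inferInstance 0 (Subsingleton.elim _ _)
  have hS : Good S := good_of_core hC3 hC4 hC hG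
  have hconj : Conj S := conj_of_core hC
  have hdeep : ∀ n : ℕ, ∃ m : ℕ, ∀ w : List X, m ≤ w.length → S.secSub (S.LSt n) w = ⊤ :=
    fun n => hC.q1 (S.LSt n) inferInstance (S.LSt_finiteIndex n)
  obtain ⟨β, hblk⟩ := hC.blk
  -- `C_1` is trivial
  have h1 : ∀ x : X, Cn S [x] = {[x]} := by
    intro x
    by_contra hne
    obtain ⟨y, hy, hxy⟩ : ∃ y : X, [y] ∈ Cn S [x] ∧ x ≠ y := by
      by_contra hcon
      push Not at hcon
      apply hne
      ext c
      constructor
      · intro hc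
        obtain ⟨y, rfl⟩ := List.length_eq_one_iff.1 hc.1
        rw [← hcon y hc]
        rfl
      · rintro rfl
        exact Cn_refl _
    obtain ⟨c, hc⟩ := Cn_large hS hconj hdeep hxy hy β
    have := Cn_small hS hconj hdeep hblk hder c
    omega
  have h2 := Cn_trivial hS hconj hdeep h1
  -- construct an element of `N_n`
  obtain ⟨c₀, hc₀⟩ := exists_word (X := X) n
  obtain ⟨m, hm⟩ := hdeep n
  obtain ⟨u, hu⟩ := exists_word (X := X) m
  obtain ⟨g, hg, hgY, hgw, hgw'⟩ := exists_common hS (n := n) (w := c₀ ++ u)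
    (hm _ (by rw [List.length_append]; omega)) ((lev X n).erase c₀)
    (fun c hc => mem_lev.1 (Finset.mem_of_mem_erase hc))
    (by
      intro c hc hcU
      have h3 : c ∈ Cn S c₀ := ⟨(mem_lev.1 (Finset.mem_of_mem_erase hc)).trans hc₀.symm, u, hcU⟩
      rw [h2 c₀] at h3
      exact Finset.ne_of_mem_erase hc h3)
  have hat : S.IsAt g c₀ (S.wsec g c₀) := by
    refine ⟨by rw [hc₀]; exact hg, rfl, fun v hv hvc => ?_⟩
    exact (S.mem_K.1 (hgY v (Finset.mem_erase.2 ⟨hvc, mem_lev.2 (hv.trans hc₀)⟩))).2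
  have hmem : S.wsec g c₀ ∈ S.N n := by
    rw [← hc₀]
    exact mem_N_of_isAt hS.selfrep hS.lev hat
  intro h0
  rw [h0, Subgroup.mem_bot] at hmem
  apply hgw'
  rw [S.wsec_append, hmem, S.wsec_one]

end PCF
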