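import Pool.Agent.Work.MP_80ff4e_al_helper41.SM
import Pool.Agent.Work.MP_80ff4e_al_helper82.L

/-!
# MP_80ff4e_al: block BIG (a large circle acts on every level as one cycle)
-/

set_option autoImplicit false

open Polynomial unitInterval

namespace PCF
namespace BIG

/-- The leading term dominates far away. -/
lemma lead_dom (F : ℂ[X]) (hF : F ≠ 0) : ∃ ρ : ℝ, 1 ≤ ρ ∧ ∀ x : ℂ, ρ ≤ ‖x‖ →
    ‖F.eval x - F.leadingCoeff * x ^ F.natDegree‖ < ‖F.leadingCoeff * x ^ F.natDegree‖ := by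
  set D := F.natDegree with hD
  set A : ℝ := ∑ i ∈ Finset.range D, ‖F.coeff i‖ with hA
  have hl : 0 < ‖F.leadingCoeff‖ := norm_pos_iff.2 (leadingCoeff_ne_zero.2 hF)
  refine ⟨max 1 ((A + 1) / ‖F.leadingCoeff‖), le_max_left _ _, fun x hx => ?_⟩
  have hx1 : 1 ≤ ‖x‖ := (le_max_left _ _).trans hx
  have hx2 : (A + 1) / ‖F.leadingCoeff‖ ≤ ‖x‖ := (le_max_right _ _).trans hx
  have hx0 : 0 < ‖x‖ := lt_of_lt_of_le one_pos hx1
  have hsub : F.eval x - F.leadingCoeff * x ^ D = ∑ i ∈ Finset.range D, F.coeff i * x ^ i := by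
    rw [eval_eq_sum_range, Finset.sum_range_succ, ← hD]
    rw [show F.coeff D = F.leadingCoeff from rfl, add_sub_cancel_right]
  rw [hsub]
  have h1 : ‖∑ i ∈ Finset.range D, F.coeff i * x ^ i‖ * ‖x‖ ≤ A * ‖x‖ ^ D := by
    calc ‖∑ i ∈ Finset.range D, F.coeff i * x ^ i‖ * ‖x‖
        ≤ (∑ i ∈ Finset.range D, ‖F.coeff i * x ^ i‖) * ‖x‖ := by
          gcongr; exact norm_sum_le _ _
      _ = ∑ i ∈ Finset.range D, ‖F.coeff i‖ * ‖x‖ ^ (i + 1) := by
          rw [Finset.sum_mul]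
          refine Finset.sum_congr rfl fun i _ => ?_
          rw [norm_mul, norm_pow, pow_succ, mul_assoc]
      _ ≤ ∑ i ∈ Finset.range D, ‖F.coeff i‖ * ‖x‖ ^ D := by
          refine Finset.sum_le_sum fun i hi => ?_
          have : i + 1 ≤ D := Finset.mem_range.1 hi
          gcongr
      _ = A * ‖x‖ ^ D := by rw [hA, Finset.sum_mul]
  have h2 : A * ‖x‖ ^ D < ‖F.leadingCoeff‖ * ‖x‖ * ‖x‖ ^ D := by
    have : A < ‖F.leadingCoeff‖ * ‖x‖ := by
      rw [div_le_iff₀ hl] at hx2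
      linarith
    have hp : 0 < ‖x‖ ^ D := pow_pos hx0 _
    exact mul_lt_mul_of_pos_right this hp
  have h3 : ‖∑ i ∈ Finset.range D, F.coeff i * x ^ i‖ * ‖x‖ <
      ‖F.leadingCoeff * x ^ D‖ * ‖x‖ := by
    rw [norm_mul, norm_pow]
    calc _ ≤ _ := h1
      _ < _ := h2
      _ = _ := by ring
  exact lt_of_mul_lt_mul_right h3 hx0.le

lemma wind_pow (u : C(I, ℂ)) (k : ℤ) (hk : Wind u k) (D : ℕ) : Wind (u ^ D) (D * k) := by
  induction D with
  | zero =>
    simpa using wind_const 1 one_ne_zero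
  | succ D ih =>
    rw [pow_succ]
    have := wind_mul _ _ _ _ ih hk
    convert this using 1
    push_cast; ring

/-- Winding number of the image of a big loop under a polynomial. -/
lemma wind_poly (F : ℂ[X]) (hF : F ≠ 0) {ρ : ℝ} (hρ : 1 ≤ ρ)
    (hdom : ∀ x : ℂ, ρ ≤ ‖x‖ →
      ‖F.eval x - F.leadingCoeff * x ^ F.natDegree‖ < ‖F.leadingCoeff * x ^ F.natDegree‖)
    (Γ v : C(I, ℂ)) (hv : ∀ s, v s = F.eval (Γ s)) (h01 : Γ 0 = Γ 1) (hΓ : ∀ s, ρ ≤ ‖Γ s‖) (k : ℤ)
    (hk : Wind Γ k) : Wind v (F.natDegree * k) := by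
  have hl : F.leadingCoeff ≠ 0 := leadingCoeff_ne_zero.2 hF
  have hΓ0 : ∀ s, Γ s ≠ 0 := fun s h => by
    have := hΓ s; rw [h, norm_zero] at this; linarith
  have hne : ∀ s, F.leadingCoeff * Γ s ^ F.natDegree ≠ 0 := fun s =>
    mul_ne_zero hl (pow_ne_zero _ (hΓ0 s))
  let q : C(I, ℂ) := ⟨fun s => F.eval (Γ s) / (F.leadingCoeff * Γ s ^ F.natDegree), by
    refine Continuous.div ?_ (by fun_prop) hne
    exact F.continuous.comp Γ.continuous⟩
  have hq : Wind q 0 := by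
    refine wind_close q 1 ?_ fun s => ?_
    · change F.eval (Γ 0) / (F.leadingCoeff * Γ 0 ^ F.natDegree) =
        F.eval (Γ 1) / (F.leadingCoeff * Γ 1 ^ F.natDegree)
      rw [h01]
    · change ‖F.eval (Γ s) / (F.leadingCoeff * Γ s ^ F.natDegree) - 1‖ < ‖(1 : ℂ)‖
      rw [div_sub_one (hne s), norm_div, norm_one, div_lt_one (norm_pos_iff.2 (hne s))]
      exact hdom _ (hΓ s)
  have h1 := wind_mul _ _ _ _ (wind_mul _ _ _ _ (wind_const _ hl) (wind_pow Γ k hk F.natDegree)) hq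
  convert h1 using 1
  · ext s
    change v s = F.leadingCoeff * Γ s ^ F.natDegree *
      (F.eval (Γ s) / (F.leadingCoeff * Γ s ^ F.natDegree))
    rw [hv, mul_div_cancel₀ _ (hne s)]
  · ring

lemma wind_pw {a : ℂ} (ha : a ≠ 0) (δ : Path a a) (h : Wind δ.toContinuousMap 1) (k : ℕ) :
    Wind (pw δ k).toContinuousMap k := by
  induction k with
  | zero =>
    have := wind_const a ha
    rw [Nat.cast_zero]
    exact this
  | succ k ih =>
    have := wind_trans a _ _ _ _ ih h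
    push_cast
    exact this

lemma mem_pw {a : ℂ} (δ : Path a a) (C : Set ℂ) (h : ∀ s, δ s ∈ C) (k : ℕ) :
    ∀ s, pw δ k s ∈ C := by
  induction k with
  | zero => intro s; simpa [pw] using h 0
  | succ k ih => exact SM.mem_trans _ _ C ih h

theorem stmt_BIG (hTR : Stmt_TR) : Stmt_BIG := by
  intro f P hA t ht
  obtain ⟨hex, huniq, hend, hrefl, hsymm, htrans, -, -, -, -, hconn, hfib, -⟩ := hTR f P hA
  obtain ⟨hL1, hL2, -, hL4, -⟩ := stmt_L
  -- uniqueness backwards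
  have huniq' : ∀ (n : ℕ) (a b : ℂ) (γ : Path a b), Av P γ → ∀ z z' w, Tr f n γ z w →
      Tr f n γ z' w → z = z' := by
    intro n a b γ hγ z z' w h h'
    exact huniq n b a γ.symm (fun s => hγ _) w z z' (hsymm n a b γ z w h) (hsymm n a b γ z' w h')
  -- a big radius
  obtain ⟨R₀, hR₀, hPR₀⟩ : ∃ R₀ : ℝ, 0 < R₀ ∧ ∀ p ∈ P, ‖p‖ < R₀ := by
    obtain ⟨B, hB⟩ := hA.fin.isBounded.exists_norm_le
    refine ⟨max B 0 + 1, by positivity, fun p hp => ?_⟩
    have := hB p hp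
    have h2 : B ≤ max B 0 := le_max_left _ _
    linarith
  have hcirc : ∀ R : ℝ, R₀ ≤ R → Av P (SM.circ 0 R) := by
    intro R hR s hs
    have h1 := hPR₀ _ hs
    have h2 := SM.norm_circ_sub 0 (hR₀.le.trans hR) s
    rw [sub_zero] at h2
    linarith
  have ha₀ : (0 : ℂ) + (R₀ : ℂ) ∉ P := by
    have := hcirc R₀ le_rfl 0
    simpa using this
  obtain ⟨η, hη⟩ := hconn t _ ht ha₀
  have hηs : Av P η.symm := fun s => hη _
  refine ⟨(η.trans (SM.circ 0 R₀)).trans η.symm, ?_, ?_⟩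
  · exact SM.mem_trans _ _ Pᶜ (SM.mem_trans _ _ Pᶜ hη (hcirc R₀ le_rfl)) hηs
  intro n x y hx hy
  set F := itp f n with hFdef
  have hFdeg : F.natDegree = f.natDegree ^ n := hL2 f n
  have hFdeg1 : 1 ≤ F.natDegree := by
    rw [hFdeg]; exact Nat.one_le_pow _ _ (by have := hA.deg; omega)
  have hF0 : F ≠ 0 := by
    intro h; rw [h, natDegree_zero] at hFdeg1; omega
  obtain ⟨ρ, hρ1, hdom⟩ := lead_dom F hF0
  -- bound for `F` on the disc of radius `ρ`
  obtain ⟨M, hM⟩ : ∃ M : ℝ, ∀ x : ℂ, ‖x‖ ≤ ρ → ‖F.eval x‖ ≤ M := by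
    obtain ⟨M, hM⟩ := ((isCompact_closedBall (0 : ℂ) ρ).image F.continuous).isBounded.exists_norm_le
    exact ⟨M, fun x hx => hM _ ⟨x, by simpa using hx, rfl⟩⟩
  obtain ⟨R, hRR₀, hRM⟩ : ∃ R : ℝ, R₀ ≤ R ∧ M < R := ⟨max R₀ (M + 1), le_max_left _ _,
    lt_of_lt_of_le (lt_add_one M) (le_max_right _ _)⟩
  have hR : 0 < R := hR₀.trans_le hRR₀
  set a : ℂ := (0 : ℂ) + (R : ℂ) with ha
  set c : Path a a := SM.circ 0 R with hc
  have hcA : Av P c := hcirc R hRR₀
  have haP : a ∉ P := by have := hcA 0; simpa using this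
  have ha0 : a ≠ 0 := by
    rw [ha, zero_add]; exact_mod_cast hR.ne'
  -- the transport along `c`
  obtain ⟨T, hT⟩ : ∃ T : {x : ℂ // it f n x = a} → {x : ℂ // it f n x = a},
      ∀ x, Tr f n c x.1 (T x).1 := by
    have : ∀ x : {x : ℂ // it f n x = a}, ∃ y : {x : ℂ // it f n x = a}, Tr f n c x.1 y.1 := by
      intro x
      obtain ⟨w, hw⟩ := hex n a a c hcA x.1 x.2
      exact ⟨⟨w, (hend n a a c _ _ hw).2⟩, hw⟩
    exact ⟨fun x => (this x).choose, fun x => (this x).choose_spec⟩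
  have hTinj : Function.Injective T := by
    intro x x' h
    have h1 := hT x
    have h2 := hT x'
    rw [← h] at h2
    exact Subtype.ext (huniq' n a a c hcA _ _ _ h1 h2)
  have hTk : ∀ k : ℕ, ∀ x, Tr f n (pw c k) x.1 (T^[k] x).1 := by
    intro k
    induction k with
    | zero => intro x; exact hrefl n a x.1 x.2
    | succ k ih =>
      intro x
      rw [Function.iterate_succ_apply']
      exact htrans n a a a (pw c k) c _ _ _ (ih x) (hT _)
  have hdvd : ∀ x, ∀ k : ℕ, T^[k] x = x → F.natDegree ∣ k := by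
    intro x k hk
    have h1 := hTk k x
    rw [hk] at h1
    obtain ⟨Γ, hΓ⟩ := h1
    have hnorm : ∀ s, ρ ≤ ‖Γ s‖ := by
      intro s
      by_contra hlt
      push Not at hlt
      have h2 := hM _ hlt.le
      rw [hL1 f n, hΓ s] at h2
      have h3 := mem_pw c {w : ℂ | ‖w‖ = R} (fun s => by
        have := SM.norm_circ_sub 0 hR.le s
        rwa [sub_zero] at this) k s
      have h4 : ‖pw c k s‖ = R := h3
      linarith
    have hΓ0 : ∀ s, Γ.toContinuousMap s ≠ 0 := by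
      intro s h
      have := hnorm s
      change Γ s = 0 at h
      rw [h, norm_zero] at this
      linarith
    have h01 : Γ.toContinuousMap 0 = Γ.toContinuousMap 1 := by
      change Γ 0 = Γ 1
      simp
    obtain ⟨m, hm⟩ := wind_exists Γ.toContinuousMap hΓ0 h01
    have h5 := wind_poly F hF0 hρ1 hdom Γ.toContinuousMap (pw c k).toContinuousMap
      (fun s => by
        change pw c k s = F.eval (Γ s)
        rw [hL1 f n, hΓ s]) h01 hnorm m hm
    have hw1 : Wind c.toContinuousMap 1 := by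
      have := SM.wind_circ 0 hR
      convert this using 1
      ext s
      simp [hc]
    have h6 := wind_pw ha0 c hw1 k
    have h7 := wind_unique _ _ _ h6 h5
    have h8 : (F.natDegree : ℤ) ∣ (k : ℤ) := ⟨m, h7⟩
    exact_mod_cast h8
  have hmem : ∀ x, x ∈ fibre F a ↔ it f n x = a := by
    intro x
    rw [hL4 F hFdeg1, hL1 f n]
  let _ : Fintype {x : ℂ // it f n x = a} := Fintype.subtype (fibre F a) hmem
  have hcard : Fintype.card {x : ℂ // it f n x = a} = F.natDegree := by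
    rw [Fintype.subtype_card, (hfib n a haP).1, hFdeg]
  have htr : ∀ x y : {x : ℂ // it f n x = a}, ∃ k : ℕ, T^[k] x = y := by
    intro x y
    have hinj : Function.Injective (fun i : Fin F.natDegree => T^[i.1] x) := by
      have key : ∀ i j : ℕ, i < j → j < F.natDegree → T^[i] x ≠ T^[j] x := by
        intro i j hij hj h
        have hj' : j = i + (j - i) := by omega
        rw [hj', Function.iterate_add_apply] at h
        have h1 := (hTinj.iterate i) h
        have h2 := hdvd x (j - i) h1.symm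
        have := Nat.le_of_dvd (by omega) h2
        omega
      intro i j h
      rcases lt_trichotomy i.1 j.1 with hlt | heq | hgt
      · exact absurd h (key _ _ hlt j.2)
      · exact Fin.ext heq
      · exact absurd h.symm (key _ _ hgt i.2)
    have hbij := (Fintype.bijective_iff_injective_and_card _).2 ⟨hinj, by rw [hcard]; simp⟩
    obtain ⟨i, hi⟩ := hbij.2 y
    exact ⟨i.1, hi⟩
  -- the circles are conjugate
  obtain ⟨ς, hς, -, -, hconj⟩ := SM.conj_of_log hTR hA (SM.circ 0 R₀) c 0 (Set.Ici (Real.log R₀))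
    (convex_Ici _)
    (by
      intro w hw hP
      have h1 := hPR₀ _ hP
      rw [zero_add, Complex.norm_exp] at h1
      have h2 : R₀ ≤ Real.exp w.re := by
        rw [← Real.log_le_iff_le_exp hR₀]; exact hw
      linarith)
    (fun s => by
      have h := SM.norm_circ_sub 0 hR₀.le s
      refine ⟨fun h0 => ?_, ?_⟩
      · rw [h0, sub_zero, norm_zero] at h; linarith
      · rw [h]; exact Set.self_mem_Ici)
    (fun s => by
      have h := SM.norm_circ_sub 0 hR.le s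
      refine ⟨fun h0 => ?_, ?_⟩
      · rw [show SM.circ 0 R s = 0 from h0, sub_zero, norm_zero] at h; linarith
      · rw [h]; exact Real.log_le_log hR₀ hRR₀)
    (SM.wind_circ 0 hR₀) (SM.wind_circ 0 hR)
  -- iterate
  have key : ∀ k : ℕ, ∀ x y x₁ y₁ : ℂ, ∀ x' : {x : ℂ // it f n x = a}, Tr f n η x x₁ →
      Tr f n ς x₁ x'.1 → Tr f n η y y₁ → Tr f n ς y₁ (T^[k] x').1 →
      Tr f n (pw ((η.trans (SM.circ 0 R₀)).trans η.symm) k) x y := by
    intro k
    induction k with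
    | zero =>
      intro x y x₁ y₁ x' h1 h2 h3 h4
      have h5 := huniq' _ _ _ _ hς _ _ _ h2 h4
      subst h5
      have h6 := huniq' _ _ _ _ hη _ _ _ h1 h3
      subst h6
      exact hrefl n t x (hend _ _ _ _ _ _ h1).1
    | succ k ih =>
      intro x y x₁ y₁ x' h1 h2 h3 h4
      rw [Function.iterate_succ_apply'] at h4
      obtain ⟨z₁, hz₁⟩ := hex n _ _ ς.symm (fun s => hς _) (T^[k] x').1 (T^[k] x').2
      obtain ⟨z, hz⟩ := hex n _ _ η.symm hηs z₁ (hend _ _ _ _ _ _ hz₁).2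
      have hz₁' : Tr f n ς z₁ (T^[k] x').1 := by
        have := hsymm _ _ _ _ _ _ hz₁; rwa [Path.symm_symm] at this
      have hz' : Tr f n η z z₁ := by
        have := hsymm _ _ _ _ _ _ hz; rwa [Path.symm_symm] at this
      have h5 := ih x z x₁ z₁ x' h1 h2 hz' hz₁'
      refine htrans _ _ _ _ (pw _ k) _ _ _ _ h5 ?_
      have h6 : Tr f n (SM.circ 0 R₀) z₁ y₁ := by
        rw [hconj]
        exact htrans _ _ _ _ _ _ _ _ _ (htrans _ _ _ _ _ _ _ _ _ hz₁' (hT _))
          (hsymm _ _ _ _ _ _ h4)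
      exact htrans _ _ _ _ _ _ _ _ _ (htrans _ _ _ _ _ _ _ _ _ hz' h6) (hsymm _ _ _ _ _ _ h3)
  obtain ⟨x₁, hx₁⟩ := hex n _ _ η hη x hx
  obtain ⟨x', hx'⟩ := hex n _ _ ς hς x₁ (hend _ _ _ _ _ _ hx₁).2
  obtain ⟨y₁, hy₁⟩ := hex n _ _ η hη y hy
  obtain ⟨y', hy'⟩ := hex n _ _ ς hς y₁ (hend _ _ _ _ _ _ hy₁).2
  obtain ⟨k, hk⟩ := htr ⟨x', (hend _ _ _ _ _ _ hx').2⟩ ⟨y', (hend _ _ _ _ _ _ hy').2⟩
  exact ⟨k, key k x y x₁ y₁ ⟨x', (hend _ _ _ _ _ _ hx').2⟩ hx₁ hx' hy₁ (by rw [hk]; exact hy')⟩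

end BIG
end PCF
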