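import Pool.Agent.Work.MP_80ff4e_al.Interface3
import Pool.Agent.Work.MP_80ff4e_al_helper39.W

/-!
# MP_80ff4e_al: block SM (small loops)

General tool: `tr_iff_of_log`: two paths with the same end points whose logarithmic coordinates
stay in a convex set that is disjoint from `P` act in the same way.
-/

set_option autoImplicit false

open Polynomial unitInterval

namespace PCF
namespace SM

/-- Concatenation is compatible with a change of coordinates. -/
lemma trans_pt {a b c u v w : ℂ} (γ₁ : Path a b) (γ₂ : Path b c) (Λ₁ : Path u v) (Λ₂ : Path v w)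
    (g : ℂ → ℂ) (h₁ : ∀ s, γ₁ s = g (Λ₁ s)) (h₂ : ∀ s, γ₂ s = g (Λ₂ s)) :
    ∀ s, (γ₁.trans γ₂) s = g ((Λ₁.trans Λ₂) s) := by
  intro s
  rw [Path.trans_apply, Path.trans_apply]
  split_ifs
  · exact h₁ _
  · exact h₂ _

lemma mem_trans {a b c : ℂ} (γ₁ : Path a b) (γ₂ : Path b c) (C : Set ℂ)
    (h₁ : ∀ s, γ₁ s ∈ C) (h₂ : ∀ s, γ₂ s ∈ C) : ∀ s, (γ₁.trans γ₂) s ∈ C := by
  intro s
  rw [Path.trans_apply]
  split_ifs
  · exact h₁ _
  · exact h₂ _

lemma mem_symm {a b : ℂ} (γ : Path a b) (C : Set ℂ) (h : ∀ s, γ s ∈ C) : ∀ s, γ.symm s ∈ C :=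
  fun _ => h _

/-- The segment from `u` to `v` as a path. -/
noncomputable def seg (u v : ℂ) : Path u v where
  toFun s := (1 - (s : ℝ)) • u + (s : ℝ) • v
  continuous_toFun := by fun_prop
  source' := by simp
  target' := by simp

lemma seg_mem {C : Set ℂ} (hC : Convex ℝ C) {u v : ℂ} (hu : u ∈ C) (hv : v ∈ C) (s : I) :
    seg u v s ∈ C :=
  hC hu hv (by linarith [s.2.2]) s.2.1 (by ring)

/-- Two paths with the same end points whose logarithmic coordinates around `z` have the same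
end points and stay in a convex set `C` such that `z + exp C` is disjoint from `P`. -/
lemma tr_of_log (hTR : Stmt_TR) {f : ℂ[X]} {P : Set ℂ} (hA : Adm f P) {a b : ℂ} (γ γ' : Path a b)
    (z : ℂ) (C : Set ℂ) (hC : Convex ℝ C) (hCP : ∀ w ∈ C, z + Complex.exp w ∉ P)
    (Λ Λ' : C(I, ℂ)) (h : ∀ s, γ s = z + Complex.exp (Λ s))
    (h' : ∀ s, γ' s = z + Complex.exp (Λ' s)) (h0 : Λ 0 = Λ' 0) (h1 : Λ 1 = Λ' 1)
    (hm : ∀ s, Λ s ∈ C) (hm' : ∀ s, Λ' s ∈ C) (n : ℕ) (x y : ℂ) (hT : Tr f n γ x y) :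
    Tr f n γ' x y := by
  obtain ⟨-, -, -, -, -, -, hH, -⟩ := hTR f P hA
  let H : γ.Homotopy γ' :=
    { toFun := fun p => z + Complex.exp ((1 - (p.1 : ℝ)) • Λ p.2 + (p.1 : ℝ) • Λ' p.2)
      continuous_toFun := by fun_prop
      map_zero_left := by intro s; simp [h]
      map_one_left := by intro s; simp [h']
      prop' := by
        intro r s hs
        rcases hs with hs | hs
        · subst hs
          change z + Complex.exp ((1 - (r : ℝ)) • Λ 0 + (r : ℝ) • Λ' 0) = γ 0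
          rw [← h0, h, ← add_smul, sub_add_cancel, one_smul]
        · have hs1 : s = 1 := hs
          subst hs1
          change z + Complex.exp ((1 - (r : ℝ)) • Λ 1 + (r : ℝ) • Λ' 1) = γ 1
          rw [← h1, h, ← add_smul, sub_add_cancel, one_smul] }
  refine hH n a b γ γ' H (fun p => ?_) x y hT
  exact hCP _ (hC (hm _) (hm' _) (by linarith [p.1.2.2]) p.1.2.1 (by ring))

lemma tr_iff_of_log (hTR : Stmt_TR) {f : ℂ[X]} {P : Set ℂ} (hA : Adm f P) {a b : ℂ}
    (γ γ' : Path a b)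
    (z : ℂ) (C : Set ℂ) (hC : Convex ℝ C) (hCP : ∀ w ∈ C, z + Complex.exp w ∉ P)
    (Λ Λ' : C(I, ℂ)) (h : ∀ s, γ s = z + Complex.exp (Λ s))
    (h' : ∀ s, γ' s = z + Complex.exp (Λ' s)) (h0 : Λ 0 = Λ' 0) (h1 : Λ 1 = Λ' 1)
    (hm : ∀ s, Λ s ∈ C) (hm' : ∀ s, Λ' s ∈ C) (n : ℕ) (x y : ℂ) :
    Tr f n γ x y ↔ Tr f n γ' x y :=
  ⟨tr_of_log hTR hA γ γ' z C hC hCP Λ Λ' h h' h0 h1 hm hm' n x y,
    tr_of_log hTR hA γ' γ z C hC hCP Λ' Λ h' h h0.symm h1.symm hm' hm n x y⟩

/-- Loops `δ`, `δ'` of winding number one around `z` whose logarithmic coordinates lie in a convex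
set `C` (invariant under `2πi`) are conjugate. -/
lemma conj_of_log (hTR : Stmt_TR) {f : ℂ[X]} {P : Set ℂ} (hA : Adm f P) {a b : ℂ} (δ : Path a a)
    (δ' : Path b b) (z : ℂ) (S : Set ℝ) (hS : Convex ℝ S)
    (hSP : ∀ w : ℂ, w.re ∈ S → z + Complex.exp w ∉ P)
    (hδ : ∀ s, δ s ≠ z ∧ Real.log ‖δ s - z‖ ∈ S) (hδ' : ∀ s, δ' s ≠ z ∧ Real.log ‖δ' s - z‖ ∈ S)
    (hw : Wind (δ.toContinuousMap - ContinuousMap.const I z) 1)
    (hw' : Wind (δ'.toContinuousMap - ContinuousMap.const I z) 1) :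
    ∃ ς : Path a b, Av P ς ∧ (∀ s, ς s ≠ z) ∧ (∀ s, Real.log ‖ς s - z‖ ∈ S) ∧
        ∀ n x y, Tr f n δ x y ↔ Tr f n ((ς.trans δ').trans ς.symm) x y := by
  obtain ⟨L, hL, hL1⟩ := hw
  obtain ⟨L', hL', hL1'⟩ := hw'
  have hLs : ∀ s, δ s = z + Complex.exp (L s) := by
    intro s
    have := hL s
    simp only [ContinuousMap.sub_apply, ContinuousMap.const_apply] at this
    rw [← this]
    simp
  have hLs' : ∀ s, δ' s = z + Complex.exp (L' s) := by
    intro s
    have := hL' s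
    simp only [ContinuousMap.sub_apply, ContinuousMap.const_apply] at this
    rw [← this]
    simp
  have hre : ∀ s, (L s).re ∈ S := by
    intro s
    have h := (hδ s).2
    rw [hLs s, add_sub_cancel_left, Complex.norm_exp, Real.log_exp] at h
    exact h
  have hre' : ∀ s, (L' s).re ∈ S := by
    intro s
    have h := (hδ' s).2
    rw [hLs' s, add_sub_cancel_left, Complex.norm_exp, Real.log_exp] at h
    exact h
  have hC : Convex ℝ {w : ℂ | w.re ∈ S} := hS.is_linear_preimage Complex.reLm.isLinear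
  -- the paths in logarithmic coordinates
  let Λ₂ : Path (L' 0) (L' 1) := ⟨L', rfl, rfl⟩
  have hL1b : L 1 = L 0 + 2 * Real.pi * Complex.I := by
    rw [sub_eq_iff_eq_add] at hL1; rw [hL1]; push_cast; ring
  have hL1b' : L' 1 = L' 0 + 2 * Real.pi * Complex.I := by
    rw [sub_eq_iff_eq_add] at hL1'; rw [hL1']; push_cast; ring
  let Λ₁ : Path (L 0) (L' 0) := seg _ _
  let Λ₃ : Path (L' 1) (L 1) := seg _ _
  have ha : z + Complex.exp (L 0) = a := by rw [← hLs]; simp
  have hb : z + Complex.exp (L' 0) = b := by rw [← hLs']; simp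
  let ς : Path a b :=
    { toFun := fun s => z + Complex.exp (Λ₁ s)
      continuous_toFun := by fun_prop
      source' := by simpa using ha
      target' := by simpa using hb }
  have hς : ∀ s, ς s = z + Complex.exp (Λ₁ s) := fun s => rfl
  have hm₁ : ∀ s, Λ₁ s ∈ {w : ℂ | w.re ∈ S} := fun s => seg_mem hC (hre 0) (hre' 0) s
  have hm₂ : ∀ s, Λ₂ s ∈ {w : ℂ | w.re ∈ S} := hre'
  have hm₃ : ∀ s, Λ₃ s ∈ {w : ℂ | w.re ∈ S} := fun s => seg_mem hC (hre' 1) (hre 1) s
  refine ⟨ς, fun s => ?_, fun s => ?_, fun s => ?_, ?_⟩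
  · rw [hς]; exact hSP _ (hm₁ s)
  · rw [hς]; simp [Complex.exp_ne_zero]
  · rw [hς, add_sub_cancel_left, Complex.norm_exp, Real.log_exp]; exact hm₁ s
  · intro n x y
    have hsymm : ∀ s, ς.symm s = z + Complex.exp (Λ₃ s) := by
      intro s
      change ς (σ s) = _
      rw [hς]
      congr 1
      have : Λ₃ s = Λ₁ (σ s) + 2 * Real.pi * Complex.I := by
        change (1 - (s : ℝ)) • L' 1 + (s : ℝ) • L 1 = (1 - ((σ s : I) : ℝ)) • L 0 +
          ((σ s : I) : ℝ) • L' 0 + 2 * Real.pi * Complex.I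
        rw [hL1b, hL1b']
        simp only [unitInterval.coe_symm_eq, Complex.real_smul]
        push_cast
        ring
      rw [this, Complex.exp_add, Complex.exp_two_pi_mul_I, mul_one]
    refine tr_iff_of_log hTR hA δ _ z _ hC (fun w hw => hSP w hw) L
      ((Λ₁.trans Λ₂).trans Λ₃).toContinuousMap hLs ?_ ?_ ?_ hre ?_ n x y
    · intro s
      exact trans_pt _ _ (Λ₁.trans Λ₂) Λ₃ (fun w => z + Complex.exp w)
        (trans_pt _ _ Λ₁ Λ₂ (fun w => z + Complex.exp w) hς hLs') hsymm s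
    · exact ((Λ₁.trans Λ₂).trans Λ₃).source.symm
    · exact ((Λ₁.trans Λ₂).trans Λ₃).target.symm
    · exact mem_trans _ _ _ (mem_trans _ _ _ hm₁ hm₂) hm₃

/-- A round loop. -/
noncomputable def circ (z : ℂ) (r : ℝ) : Path (z + r) (z + r) where
  toFun s := z + r * Complex.exp (2 * Real.pi * Complex.I * s)
  continuous_toFun := by fun_prop
  source' := by simp
  target' := by simp [Complex.exp_two_pi_mul_I]

lemma circ_apply (z : ℂ) (r : ℝ) (s : I) :
    circ z r s = z + r * Complex.exp (2 * Real.pi * Complex.I * s) := rfl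

lemma norm_circ_sub (z : ℂ) {r : ℝ} (hr : 0 ≤ r) (s : I) : ‖circ z r s - z‖ = r := by
  rw [circ_apply, add_sub_cancel_left, norm_mul, Complex.norm_real, Real.norm_of_nonneg hr]
  have : (2 * Real.pi * Complex.I * (s : ℂ) : ℂ) = ((2 * Real.pi * (s : ℝ) : ℝ) : ℂ) * Complex.I := by
    push_cast; ring
  rw [this, Complex.norm_exp_ofReal_mul_I, mul_one]

lemma wind_circ (z : ℂ) {r : ℝ} (hr : 0 < r) :
    Wind ((circ z r).toContinuousMap - ContinuousMap.const I z) 1 := by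
  obtain ⟨-, -, -, -, -, -, h, -, -⟩ := stmt_W
  have h1 := h r 1 hr
  convert h1 using 1
  ext s
  simp [circ_apply]

theorem small_exists {P : Set ℂ} (hP : P.Finite) (z : ℂ) (ε : ℝ) (hε : 0 < ε) :
    ∃ (a : ℂ) (ρ : ℝ) (δ : Path a a), Small P z ρ δ ∧ Av P δ ∧ ρ ≤ ε := by
  obtain ⟨ρ, hρ0, hρε, hρ⟩ : ∃ ρ, 0 < ρ ∧ ρ ≤ ε ∧ ∀ p ∈ P, ‖p - z‖ < ρ → p = z := by
    have hcl : IsClosed (P \ {z}) := (hP.subset Set.sdiff_subset).isClosed
    have hz : z ∈ (P \ {z})ᶜ := by simp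
    obtain ⟨r, hr, hball⟩ := Metric.isOpen_iff.1 hcl.isOpen_compl z hz
    refine ⟨min r ε, lt_min hr hε, min_le_right _ _, fun p hp hpz => ?_⟩
    by_contra hne
    have : p ∈ Metric.ball z r := by
      rw [Metric.mem_ball, dist_eq_norm]; exact hpz.trans_le (min_le_left _ _)
    exact hball this ⟨hp, hne⟩
  have hr : 0 < ρ / 2 := by positivity
  refine ⟨_, ρ, circ z (ρ / 2), ⟨hρ, fun s => ⟨?_, ?_⟩, wind_circ z hr⟩, fun s hs => ?_, hρε⟩
  · intro h
    have := norm_circ_sub z hr.le s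
    rw [h, sub_self, norm_zero] at this
    linarith
  · rw [norm_circ_sub z hr.le]; linarith
  · have h1 := norm_circ_sub z hr.le s
    have := hρ _ hs (by rw [h1]; linarith)
    rw [this, sub_self, norm_zero] at h1
    linarith

theorem stmt_SM (hTR : Stmt_TR) : Stmt_SM := by
  intro f P hA
  refine ⟨fun z ε hε => small_exists hA.fin z ε hε, ?_, ?_⟩
  · intro z a b ρ ρ' δ δ' hδ hδ'
    -- common radius
    have hR : ∀ p ∈ P, ‖p - z‖ < max ρ ρ' → p = z := by
      intro p hp h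
      rcases lt_max_iff.1 h with h | h
      · exact hδ.1 p hp h
      · exact hδ'.1 p hp h
    have hpos : ∀ s, 0 < ‖δ s - z‖ := fun s => norm_pos_iff.2 (sub_ne_zero.2 (hδ.2.1 s).1)
    have hpos' : ∀ s, 0 < ‖δ' s - z‖ := fun s => norm_pos_iff.2 (sub_ne_zero.2 (hδ'.2.1 s).1)
    have hRpos : 0 < max ρ ρ' := ((hpos 0).trans (hδ.2.1 0).2).trans_le (le_max_left _ _)
    obtain ⟨ς, h1, h2, -, h3⟩ := conj_of_log hTR hA δ δ' z (Set.Iio (Real.log (max ρ ρ')))
      (convex_Iio _)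
      (by
        intro w hw hP
        have hlt : ‖z + Complex.exp w - z‖ < max ρ ρ' := by
          rw [add_sub_cancel_left, Complex.norm_exp]
          exact (Real.lt_log_iff_exp_lt hRpos).1 hw
        have := hR _ hP hlt
        exact Complex.exp_ne_zero w (by linear_combination this))
      (fun s => ⟨(hδ.2.1 s).1, Real.log_lt_log (hpos s) ((hδ.2.1 s).2.trans_le (le_max_left _ _))⟩)
      (fun s => ⟨(hδ'.2.1 s).1,
        Real.log_lt_log (hpos' s) ((hδ'.2.1 s).2.trans_le (le_max_right _ _))⟩)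
      hδ.2.2 hδ'.2.2
    exact ⟨ς, h1, h2, h3⟩
  · intro z a ρ δ hz hδ n x y hT
    obtain ⟨-, huniq, hend, hrefl, -, -, -, hconv, -⟩ := hTR f P hA
    have hdisj : Disjoint (Metric.ball z ρ) P := by
      rw [Set.disjoint_left]
      intro p hp hpP
      have := hδ.1 p hpP (by rwa [Metric.mem_ball, dist_eq_norm] at hp)
      exact hz (this ▸ hpP)
    have hmem : ∀ s, δ s ∈ Metric.ball z ρ := fun s => by
      rw [Metric.mem_ball, dist_eq_norm]; exact (hδ.2.1 s).2
    have ha : a ∈ Metric.ball z ρ := by simpa using hmem 0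
    have h1 := hconv n a a δ (Path.refl a) (Metric.ball z ρ) (convex_ball _ _) hdisj hmem
      (fun s => by simpa using ha) x y hT
    have hx := (hend n a a δ x y hT).1
    refine huniq n a a (Path.refl a) ?_ x x y (hrefl n a x hx) h1
    intro s
    exact fun h => Set.disjoint_left.1 hdisj ha (by simpa using h)

end SM
end PCF
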