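import Pool.Agent.Work.MP_80ff4e_al_helper80.LC
import Pool.Agent.Work.MP_80ff4e_al_helper80.TOPI

/-!
# MP_80ff4e_al: block TOPa (coding of the tree by words)
-/

set_option autoImplicit false

open Polynomial unitInterval

namespace PCF

open PCF.H80
namespace TOPa

lemma adm {f : ℂ[X]} (hdeg : 2 ≤ f.natDegree) (hfin : (postCrit f).Finite) :
    Adm f (postCrit f) where
  deg := hdeg
  fin := hfin
  fwd := by
    rintro z ⟨c, hc, n, hn, rfl⟩
    refine ⟨c, hc, n + 1, by omega, ?_⟩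
    simp only [it, Function.iterate_succ_apply']
  crit := fun c hc => ⟨c, hc, 1, le_rfl, rfl⟩

lemma it_succ' (f : ℂ[X]) (n : ℕ) (z : ℂ) : it f (n + 1) z = f.eval (it f n z) := by
  simp only [it, Function.iterate_succ_apply']

lemma it_add (f : ℂ[X]) (m n : ℕ) (z : ℂ) : it f (m + n) z = it f m (it f n z) :=
  Function.iterate_add_apply _ _ _ _

lemma it_one (f : ℂ[X]) (z : ℂ) : it f 1 z = f.eval z := rfl

section tp

variable {f : ℂ[X]} {P : Set ℂ} (h : Adm f P) (hTR : Stmt_TR)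

/-- Transport along a path. -/
noncomputable def tp {a b : ℂ} (γ : Path a b) (hγ : Av P γ) : Vertex f a ≃ Vertex f b where
  toFun v := ⟨(v.1.1, (tr_exists h hTR hγ v.2).choose),
    (tr_ends h hTR (tr_exists h hTR hγ v.2).choose_spec).2⟩
  invFun v := ⟨(v.1.1, (tr_exists h hTR (symm_av hγ) v.2).choose),
    (tr_ends h hTR (tr_exists h hTR (symm_av hγ) v.2).choose_spec).2⟩
  left_inv v := by
    apply Subtype.ext
    apply Prod.ext
    · rfl
    · have h1 := (tr_exists h hTR hγ v.2).choose_spec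
      have h2 := (tr_exists h hTR (symm_av hγ)
        (tr_ends h hTR (tr_exists h hTR hγ v.2).choose_spec).2).choose_spec
      exact tr_unique h hTR (symm_av hγ) h2 (tr_symm h hTR h1)
  right_inv v := by
    apply Subtype.ext
    apply Prod.ext
    · rfl
    · have h1 := (tr_exists h hTR (symm_av hγ) v.2).choose_spec
      have h2 := (tr_exists h hTR hγ
        (tr_ends h hTR (tr_exists h hTR (symm_av hγ) v.2).choose_spec).2).choose_spec
      exact tr_unique h hTR hγ h2 ((tr_symm_iff h hTR).1 h1)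

lemma tp_fst {a b : ℂ} (γ : Path a b) (hγ : Av P γ) (v : Vertex f a) :
    (tp h hTR γ hγ v).1.1 = v.1.1 := rfl

lemma tp_tr {a b : ℂ} (γ : Path a b) (hγ : Av P γ) (v : Vertex f a) :
    Tr f v.1.1 γ v.1.2 (tp h hTR γ hγ v).1.2 := (tr_exists h hTR hγ v.2).choose_spec

lemma tp_eq {a b : ℂ} {γ : Path a b} {hγ : Av P γ} {v : Vertex f a} {w : Vertex f b}
    (h1 : w.1.1 = v.1.1) (h2 : Tr f v.1.1 γ v.1.2 w.1.2) : tp h hTR γ hγ v = w := by
  apply Subtype.ext
  apply Prod.ext
  · exact h1.symm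
  · exact tr_unique h hTR hγ (tp_tr h hTR γ hγ v) h2

lemma tp_trans {a b c : ℂ} (γ : Path a b) (hγ : Av P γ) (δ : Path b c) (hδ : Av P δ)
    (hγδ : Av P (γ.trans δ)) (v : Vertex f a) :
    tp h hTR (γ.trans δ) hγδ v = tp h hTR δ hδ (tp h hTR γ hγ v) :=
  tp_eq h hTR rfl (tr_trans h hTR (tp_tr h hTR γ hγ v) (tp_tr h hTR δ hδ _))

lemma tp_symm {a b : ℂ} (γ : Path a b) (hγ : Av P γ) (hγ' : Av P γ.symm) (v : Vertex f b) :
    tp h hTR γ.symm hγ' v = (tp h hTR γ hγ).symm v := by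
  refine tp_eq h hTR (w := (tp h hTR γ hγ).symm v) (by rfl) ?_
  have := tp_tr h hTR γ hγ ((tp h hTR γ hγ).symm v)
  rw [Equiv.apply_symm_apply] at this
  exact tr_symm h hTR this

lemma tp_congr {a b : ℂ} (γ δ : Path a b) (hγ : Av P γ) (hδ : Av P δ)
    (H : ∀ n z w, Tr f n γ z w ↔ Tr f n δ z w) (v : Vertex f a) :
    tp h hTR γ hγ v = tp h hTR δ hδ v :=
  tp_eq h hTR rfl ((H _ _ _).2 (tp_tr h hTR δ hδ v))

/-- The embedding of the tree of preimages of a preimage `x` of `t`. -/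
def up {t : ℂ} (x : {x : ℂ // f.eval x = t}) (v : Vertex f x.1) : Vertex f t :=
  ⟨(v.1.1 + 1, v.1.2), by
    have h1 := v.2
    show it f (v.1.1 + 1) v.1.2 = t
    rw [it_succ', h1, x.2]⟩

lemma up_inj {t : ℂ} {x y : {x : ℂ // f.eval x = t}} {v : Vertex f x.1} {w : Vertex f y.1}
    (hvw : up x v = up y w) : x = y ∧ HEq v w := by
  have h1 : v.1.1 + 1 = w.1.1 + 1 := congrArg (fun z : Vertex f t => z.1.1) hvw
  have h2 : v.1.2 = w.1.2 := congrArg (fun z : Vertex f t => z.1.2) hvw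
  have h3 : v.1.1 = w.1.1 := by omega
  have hxy : x = y := by
    apply Subtype.ext
    rw [← v.2, ← w.2, h2, h3]
  subst hxy
  refine ⟨rfl, heq_of_eq ?_⟩
  exact Subtype.ext (Prod.ext h3 h2)

/-- Transports and lifts. -/
lemma tp_up {t s : ℂ} (γ : Path t s) (hγ : Av P γ) (x : {x : ℂ // f.eval x = t})
    (y : {x : ℂ // f.eval x = s}) (Γ : Path x.1 y.1) (hΓ : ∀ s, f.eval (Γ s) = γ s)
    (hΓ' : Av P Γ) (v : Vertex f x.1) :
    tp h hTR γ hγ (up x v) = up y (tp h hTR Γ hΓ' v) := by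
  obtain ⟨-, -, -, -, -, -, -, -, hlift, -⟩ := hTR f P h
  refine tp_eq h hTR (w := up y (tp h hTR Γ hΓ' v)) (by rfl) ?_
  have h1 := (hlift v.1.1 1 _ _ γ _ _ Γ hγ hΓ).2 v.1.2 (tp h hTR Γ hΓ' v).1.2 v.2
  exact h1.1 (tp_tr h hTR Γ hΓ' v)

end tp

section img

variable {f : ℂ[X]} {t : ℂ} (h : Adm f (postCrit f)) (hTR : Stmt_TR)

lemma tp_mem (γ : Path t t) (hγ : Av (postCrit f) γ) : tp h hTR γ hγ ∈ IMG f t := by
  apply Subgroup.subset_closure
  refine ⟨γ.toContinuousMap, γ.source, γ.target, hγ, fun v => ⟨rfl, ?_⟩⟩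
  obtain ⟨Γ, hΓ⟩ := tp_tr h hTR γ hγ v
  exact ⟨Γ.toContinuousMap, Γ.source, Γ.target, hΓ⟩

lemma mem_IMG (ht : t ∉ postCrit f) {g : Equiv.Perm (Vertex f t)} (hg : g ∈ IMG f t) :
    ∃ (γ : Path t t) (hγ : Av (postCrit f) γ), g = tp h hTR γ hγ := by
  induction hg using Subgroup.closure_induction with
  | mem g hg =>
    obtain ⟨γ, h0, h1, hav, hact⟩ := hg
    refine ⟨⟨γ, h0, h1⟩, hav, ?_⟩
    ext1 v
    symm
    obtain ⟨h2, Γ, h3, h4, h5⟩ := hact v
    exact tp_eq h hTR h2 ⟨⟨Γ, h3, h4⟩, h5⟩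
  | one =>
    refine ⟨Path.refl t, fun _ => ht, ?_⟩
    ext1 v
    symm
    exact tp_eq h hTR rfl (tr_refl h hTR v.2)
  | mul g k hg hk ihg ihk =>
    obtain ⟨γ, hγ, rfl⟩ := ihg
    obtain ⟨δ, hδ, rfl⟩ := ihk
    refine ⟨δ.trans γ, trans_av hδ hγ, ?_⟩
    ext1 v
    rw [tp_trans h hTR δ hδ γ hγ]
    rfl
  | inv g hg ihg =>
    obtain ⟨γ, hγ, rfl⟩ := ihg
    refine ⟨γ.symm, symm_av hγ, ?_⟩
    ext1 v
    rw [tp_symm h hTR γ hγ]
    rfl

end img

section code

variable {f : ℂ[X]} {t : ℂ} (h : Adm f (postCrit f)) (hTR : Stmt_TR)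
  (l : (x : {x : ℂ // f.eval x = t}) → Path t x.1) (hl : ∀ x, Av (postCrit f) (l x))

/-- The map `S_x`. -/
noncomputable def U (x : {x : ℂ // f.eval x = t}) (v : Vertex f t) : Vertex f t :=
  up x (tp h hTR (l x) (hl x) v)

lemma U_fst (x : {x : ℂ // f.eval x = t}) (v : Vertex f t) :
    (U h hTR l hl x v).1.1 = v.1.1 + 1 := rfl

lemma U_snd (x : {x : ℂ // f.eval x = t}) (v : Vertex f t) :
    (U h hTR l hl x v).1.2 = (tp h hTR (l x) (hl x) v).1.2 := rfl

lemma U_inj {x y : {x : ℂ // f.eval x = t}} {v w : Vertex f t}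
    (hvw : U h hTR l hl x v = U h hTR l hl y w) : x = y ∧ v = w := by
  obtain ⟨h1, h2⟩ := up_inj hvw
  subst h1
  exact ⟨rfl, (tp h hTR (l x) (hl x)).injective (eq_of_heq h2)⟩

/-- The coding map. -/
noncomputable def lam : List {x : ℂ // f.eval x = t} → Vertex f t
  | [] => ⟨(0, t), rfl⟩
  | x :: w => U h hTR l hl x (lam w)

@[simp] lemma lam_nil : lam h hTR l hl [] = ⟨(0, t), rfl⟩ := rfl
@[simp] lemma lam_cons (x : {x : ℂ // f.eval x = t}) (w : List {x : ℂ // f.eval x = t}) :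
    lam h hTR l hl (x :: w) = U h hTR l hl x (lam h hTR l hl w) := rfl

lemma lam_level (w : List {x : ℂ // f.eval x = t}) : (lam h hTR l hl w).1.1 = w.length := by
  induction w with
  | nil => rfl
  | cons x w ih => rw [lam_cons, U_fst, ih, List.length_cons]

lemma lam_injective : Function.Injective (lam h hTR l hl) := by
  intro u
  induction u with
  | nil =>
    intro v huv
    have h1 := lam_level h hTR l hl v
    rw [← huv] at h1
    exact (List.length_eq_zero_iff.1 h1.symm).symm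
  | cons x u ih =>
    intro v huv
    cases v with
    | nil =>
      have h1 := lam_level h hTR l hl (x :: u)
      rw [huv] at h1
      cases h1
    | cons y v =>
      obtain ⟨h1, h2⟩ := U_inj h hTR l hl huv
      rw [h1, ih h2]

lemma lam_surjective : Function.Surjective (lam h hTR l hl) := by
  have key : ∀ (n : ℕ) (v : Vertex f t), v.1.1 = n → ∃ w, lam h hTR l hl w = v := by
    intro n
    induction n with
    | zero =>
      rintro ⟨⟨n, z⟩, hv⟩ hn
      obtain rfl : n = 0 := hn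
      obtain rfl : z = t := hv
      exact ⟨[], rfl⟩
    | succ n ih =>
      rintro ⟨⟨m, z⟩, hv⟩ hn
      obtain rfl : m = n + 1 := hn
      have hv' : f.eval (it f n z) = t := by rw [← it_succ']; exact hv
      let x : {x : ℂ // f.eval x = t} := ⟨it f n z, hv'⟩
      let v' : Vertex f x.1 := ⟨(n, z), rfl⟩
      obtain ⟨w, hw⟩ := ih ((tp h hTR (l x) (hl x)).symm v') rfl
      refine ⟨x :: w, ?_⟩
      rw [lam_cons, hw, U, Equiv.apply_symm_apply]
      rfl
  exact fun v => key _ v rfl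

lemma lam_bijective : Function.Bijective (lam h hTR l hl) :=
  ⟨lam_injective h hTR l hl, lam_surjective h hTR l hl⟩

/-- The tree structure. -/
lemma it_lam_append (v u : List {x : ℂ // f.eval x = t}) :
    it f u.length (lam h hTR l hl (v ++ u)).1.2 = (lam h hTR l hl v).1.2 := by
  induction v with
  | nil =>
    have h1 := (lam h hTR l hl u).2
    rw [lam_level] at h1
    exact h1
  | cons x v ih =>
    have h1 := tp_tr h hTR (l x) (hl x) (lam h hTR l hl (v ++ u))
    have h2 := tp_tr h hTR (l x) (hl x) (lam h hTR l hl v)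
    rw [lam_level, List.length_append, add_comm] at h1
    rw [lam_level] at h2
    have h3 := (hTR f _ h).2.2.2.2.2.2.2.2.2.1 u.length v.length _ _ (l x) _ _ h1
    rw [ih] at h3
    exact tr_unique h hTR (hl x) h3 h2

lemma prefix_iff (v w : List {x : ℂ // f.eval x = t}) :
    v <+: w ↔ InSubtree (lam h hTR l hl v) (lam h hTR l hl w) := by
  constructor
  · rintro ⟨u, rfl⟩
    refine ⟨by rw [lam_level, lam_level, List.length_append]; omega, ?_⟩
    rw [lam_level, lam_level, List.length_append, Nat.add_sub_cancel_left]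
    exact it_lam_append h hTR l hl v u
  · rintro ⟨h1, h2⟩
    rw [lam_level, lam_level] at h1 h2
    have h3 := it_lam_append h hTR l hl (w.take v.length) (w.drop v.length)
    rw [List.take_append_drop, List.length_drop, h2] at h3
    have h4 : lam h hTR l hl v = lam h hTR l hl (w.take v.length) := by
      apply Subtype.ext
      apply Prod.ext
      · rw [lam_level, lam_level, List.length_take]
        omega
      · exact h3
    rw [lam_injective h hTR l hl h4]
    exact List.take_prefix _ _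

/-- The maps `u ↦ w ++ u` are transports. -/
lemma exists_path (ht : t ∉ postCrit f) (w : List {x : ℂ // f.eval x = t}) :
    ∃ ℓ : Path t (lam h hTR l hl w).1.2, Av (postCrit f) ℓ ∧
      ∀ u : List {x : ℂ // f.eval x = t},
        Tr f u.length ℓ (lam h hTR l hl u).1.2 (lam h hTR l hl (w ++ u)).1.2 := by
  induction w with
  | nil =>
    refine ⟨Path.refl t, fun _ => ht, fun u => ?_⟩
    have h1 := (lam h hTR l hl u).2
    rw [lam_level] at h1
    exact tr_refl h hTR h1
  | cons x w ih =>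
    obtain ⟨ℓ, hℓ, hℓ'⟩ := ih
    have h2 := tp_tr h hTR (l x) (hl x) (lam h hTR l hl w)
    rw [lam_level] at h2
    obtain ⟨Γ, hΓ⟩ := h2
    have h3 := fun m x' y' => ((hTR f _ h).2.2.2.2.2.2.2.2.1 m w.length _ _ (l x) _ _ Γ (hl x)
      hΓ).2 x' y'
    have hΓav := ((hTR f _ h).2.2.2.2.2.2.2.2.1 0 w.length _ _ (l x) _ _ Γ (hl x) hΓ).1
    refine ⟨ℓ.trans Γ, trans_av hℓ hΓav, fun u => ?_⟩
    refine tr_trans h hTR (hℓ' u) ?_
    refine (h3 u.length _ _ (it_lam_append h hTR l hl w u)).2 ?_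
    have h4 := tp_tr h hTR (l x) (hl x) (lam h hTR l hl (w ++ u))
    rw [lam_level, List.length_append, add_comm] at h4
    exact h4

end code

section selfsim

variable {f : ℂ[X]} {t : ℂ} (h : Adm f (postCrit f)) (hTR : Stmt_TR) (ht : t ∉ postCrit f)
  (l : (x : {x : ℂ // f.eval x = t}) → Path t x.1) (hl : ∀ x, Av (postCrit f) (l x))

include ht in
lemma exists_sec (g : IMG f t) (x : {x : ℂ // f.eval x = t}) :
    ∃ (y : {x : ℂ // f.eval x = t}) (k : IMG f t), ∀ v,
      g.1 (U h hTR l hl x v) = U h hTR l hl y (k.1 v) := by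
  obtain ⟨γ, hγ, hg⟩ := mem_IMG h hTR ht g.2
  obtain ⟨y', hy'⟩ := tr_exists (n := 1) h hTR hγ (z := x.1) x.2
  have hy : f.eval y' = t := (tr_ends h hTR hy').2
  obtain ⟨Γ, hΓ⟩ := hy'
  have hΓav := ((hTR f _ h).2.2.2.2.2.2.2.2.1 0 1 _ _ γ _ _ Γ hγ hΓ).1
  let y : {x : ℂ // f.eval x = t} := ⟨y', hy⟩
  have hav : Av (postCrit f) (((l x).trans Γ).trans (l y).symm) :=
    trans_av (trans_av (hl x) hΓav) (symm_av (hl y))
  refine ⟨y, ⟨_, tp_mem h hTR _ hav⟩, fun v => ?_⟩
  rw [hg, U, tp_up h hTR γ hγ x y Γ hΓ hΓav, U]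
  rw [tp_trans h hTR ((l x).trans Γ) (trans_av (hl x) hΓav) (l y).symm (symm_av (hl y)),
    tp_trans h hTR (l x) (hl x) Γ hΓav, tp_symm h hTR (l y) (hl y), Equiv.apply_symm_apply]

/-- The action on letters. -/
noncomputable def ac (g : IMG f t) (x : {x : ℂ // f.eval x = t}) : {x : ℂ // f.eval x = t} :=
  (exists_sec h hTR ht l hl g x).choose

/-- The section. -/
noncomputable def se (g : IMG f t) (x : {x : ℂ // f.eval x = t}) : IMG f t :=
  (exists_sec h hTR ht l hl g x).choose_spec.choose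

lemma ac_se (g : IMG f t) (x : {x : ℂ // f.eval x = t}) (v : Vertex f t) :
    g.1 (U h hTR l hl x v) = U h hTR l hl (ac h hTR ht l hl g x) ((se h hTR ht l hl g x).1 v) :=
  (exists_sec h hTR ht l hl g x).choose_spec.choose_spec v

lemma ac_se_unique (g : IMG f t) (x y : {x : ℂ // f.eval x = t}) (k : IMG f t)
    (hk : ∀ v, g.1 (U h hTR l hl x v) = U h hTR l hl y (k.1 v)) :
    ac h hTR ht l hl g x = y ∧ se h hTR ht l hl g x = k := by
  have h1 : ∀ v, ac h hTR ht l hl g x = y ∧ (se h hTR ht l hl g x).1 v = k.1 v := fun v =>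
    U_inj h hTR l hl ((ac_se h hTR ht l hl g x v).symm.trans (hk v))
  refine ⟨(h1 ⟨(0, t), rfl⟩).1, ?_⟩
  apply Subtype.ext
  ext1 v
  exact (h1 v).2

lemma ac_se_one (x : {x : ℂ // f.eval x = t}) :
    ac h hTR ht l hl 1 x = x ∧ se h hTR ht l hl 1 x = 1 :=
  ac_se_unique h hTR ht l hl 1 x x 1 fun _ => rfl

lemma ac_se_mul (g k : IMG f t) (x : {x : ℂ // f.eval x = t}) :
    ac h hTR ht l hl (g * k) x = ac h hTR ht l hl g (ac h hTR ht l hl k x) ∧
      se h hTR ht l hl (g * k) x =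
        se h hTR ht l hl g (ac h hTR ht l hl k x) * se h hTR ht l hl k x := by
  apply ac_se_unique
  intro v
  rw [Subgroup.coe_mul, Equiv.Perm.mul_apply, ac_se h hTR ht l hl k, ac_se h hTR ht l hl g]
  rfl

/-- The self-similar action. -/
noncomputable def SS : SelfSim (IMG f t) {x : ℂ // f.eval x = t} where
  act := MonoidHom.mk' (fun g => {
      toFun := ac h hTR ht l hl g
      invFun := ac h hTR ht l hl g⁻¹
      left_inv := fun x => by
        rw [← (ac_se_mul h hTR ht l hl _ _ _).1, inv_mul_cancel, (ac_se_one h hTR ht l hl _).1]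
      right_inv := fun x => by
        rw [← (ac_se_mul h hTR ht l hl _ _ _).1, mul_inv_cancel, (ac_se_one h hTR ht l hl _).1] })
    (fun g k => by
      ext1 x
      exact (ac_se_mul h hTR ht l hl g k x).1)
  sec := se h hTR ht l hl
  sec_mul g k x := (ac_se_mul h hTR ht l hl g k x).2

lemma SS_act (g : IMG f t) (x : {x : ℂ // f.eval x = t}) :
    (SS h hTR ht l hl).act g x = ac h hTR ht l hl g x := rfl

lemma SS_sec (g : IMG f t) (x : {x : ℂ // f.eval x = t}) :
    (SS h hTR ht l hl).sec g x = se h hTR ht l hl g x := rfl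

lemma lam_wact (w : List {x : ℂ // f.eval x = t}) : ∀ g : IMG f t,
    lam h hTR l hl ((SS h hTR ht l hl).wact g w) = g.1 (lam h hTR l hl w) := by
  induction w with
  | nil =>
    intro g
    obtain ⟨γ, hγ, hg⟩ := mem_IMG h hTR ht g.2
    rw [SelfSim.wact_nil, lam_nil, hg]
    symm
    refine tp_eq h hTR (w := ⟨(0, t), rfl⟩) rfl ?_
    exact ⟨γ, fun _ => rfl⟩
  | cons x w ih =>
    intro g
    rw [SelfSim.wact_cons, lam_cons, lam_cons, ih, ac_se h hTR ht l hl g x]
    rfl

lemma faithful : (SS h hTR ht l hl).Faithful := by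
  intro g hg
  apply Subtype.ext
  ext1 v
  obtain ⟨w, rfl⟩ := lam_surjective h hTR l hl v
  rw [← lam_wact h hTR ht l hl, hg]
  rfl

lemma selfRep : (SS h hTR ht l hl).SelfRep := by
  intro x g
  obtain ⟨γ, hγ, hg⟩ := mem_IMG h hTR ht g.2
  -- perturb the conjugated loop off the preimage of `P`
  let P' : Set ℂ := {z | f.eval z ∈ postCrit f}
  have hP'fin : P'.Finite := by
    have h1 : P' = ⋃ p ∈ postCrit f, {z | f.eval z = p} := by
      ext z
      simp [P']
    rw [h1]
    refine h.fin.biUnion fun p _ => ?_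
    have hne : f - C p ≠ 0 := by
      intro h0
      have : f = C p := sub_eq_zero.1 h0
      have h2 := h.deg
      rw [this, natDegree_C] at h2
      omega
    refine ((f - C p).roots.toFinset.finite_toSet).subset ?_
    intro z hz
    simp only [Set.mem_ofPred_eq] at hz
    simp [hne, hz, IsRoot]
  have hPP' : postCrit f ⊆ P' := fun z hz => h.fwd z hz
  have hx : x.1 ∉ P' := by
    show ¬ f.eval x.1 ∈ postCrit f
    rw [x.2]
    exact ht
  have hδ0 : Av (postCrit f) (((l x).symm.trans γ).trans (l x)) :=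
    trans_av (trans_av (symm_av (hl x)) hγ) (hl x)
  obtain ⟨-, -, -, -, -, -, -, -, -, -, -, -, hpert⟩ := hTR f _ h
  obtain ⟨δ, hδ, hδtr⟩ := hpert P' hP'fin hPP' x.1 x.1 hx hx _ hδ0
  have hδav : Av (postCrit f) δ := fun s hs => hδ s (hPP' hs)
  let γ' : Path t t :=
    { toFun := fun s => f.eval (δ s)
      continuous_toFun := by fun_prop
      source' := by simp [x.2]
      target' := by simp [x.2] }
  have hγ' : Av (postCrit f) γ' := fun s hs => hδ s hs
  refine ⟨⟨_, tp_mem h hTR γ' hγ'⟩, ?_⟩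
  have key := ac_se_unique h hTR ht l hl ⟨_, tp_mem h hTR γ' hγ'⟩ x x g (fun v => by
    show tp h hTR γ' hγ' (U h hTR l hl x v) = _
    rw [U, tp_up h hTR γ' hγ' x x δ (fun _ => rfl) hδav, U,
      ← tp_congr h hTR _ δ hδ0 hδav hδtr,
      tp_trans h hTR _ (trans_av (symm_av (hl x)) hγ) (l x) (hl x),
      tp_trans h hTR _ (symm_av (hl x)) γ hγ, tp_symm h hTR (l x) (hl x),
      Equiv.symm_apply_apply, hg])
  exact key

end selfsim

theorem stmt_TOPa_of (hTR : Stmt_TR) (hL : Stmt_L) : Stmt_TOPa := by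
  intro f t hdeg hfin ht
  have h : Adm f (postCrit f) := adm hdeg hfin
  have hx : ∀ x : {x : ℂ // f.eval x = t}, x.1 ∉ postCrit f := by
    intro x hx
    apply ht
    have := h.fwd _ hx
    rwa [x.2] at this
  have hconn := (hTR f _ h).2.2.2.2.2.2.2.2.2.2.1
  choose l hl using fun x : {x : ℂ // f.eval x = t} => hconn t x.1 ht (hx x)
  have hset : ∀ x : ℂ, x ∈ fibre (itp f 1) t ↔ f.eval x = t := by
    intro x
    obtain ⟨h1, h2, -, h4, -⟩ := hL
    rw [h4 (itp f 1) (by rw [h2]; simp; omega) t x, h1]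
    rfl
  letI : Fintype {x : ℂ // f.eval x = t} := Fintype.subtype (fibre (itp f 1) t) hset
  have hcard : Fintype.card {x : ℂ // f.eval x = t} = f.natDegree := by
    rw [Fintype.card_of_subtype (fibre (itp f 1) t) hset]
    have := ((hTR f _ h).2.2.2.2.2.2.2.2.2.2.2.1 1 t ht).1
    rwa [pow_one] at this
  have hlen := lam_level h hTR l hl
  have hact := fun (g : IMG f t) (w : List {x : ℂ // f.eval x = t}) =>
    lam_wact h hTR ht l hl w g
  refine ⟨{x : ℂ // f.eval x = t}, inferInstance, SS h hTR ht l hl,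
    Equiv.ofBijective (lam h hTR l hl) (lam_bijective h hTR l hl), hcard, hlen,
    prefix_iff h hTR l hl, hact, faithful h hTR ht l hl, selfRep h hTR ht l hl, ?_, ?_,
    exists_path h hTR l hl ht⟩
  · intro g
    obtain ⟨γ, hγ, hg⟩ := mem_IMG h hTR ht g.2
    refine ⟨γ, hγ, fun w => ?_⟩
    have h1 := tp_tr h hTR γ hγ (lam h hTR l hl w)
    rw [hlen, ← hg] at h1
    exact h1
  · intro γ hγ
    refine ⟨⟨_, tp_mem h hTR γ hγ⟩, fun w => ?_⟩
    have h1 := tp_tr h hTR γ hγ (lam h hTR l hl w)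
    rw [hlen] at h1
    exact h1

end TOPa
end PCF
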