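import Pool.Agent.Work.MP_80ff4e_al.Interface2
import Pool.Agent.Work.MP_80ff4e_al_helper52.C0a

/-!
# MP_80ff4e_al: block C2, part 1 (orbits of subgroups on words)
-/

set_option autoImplicit false

namespace PCF

namespace SelfSim

variable {G X : Type} [Group G] (S : SelfSim G X)

theorem wact_take (g : G) (w : List X) (k : ℕ) : (S.wact g w).take k = S.wact g (w.take k) := by
  rcases le_or_gt k w.length with h | h
  · conv_lhs => rw [← List.take_append_drop k w, S.wact_append]
    rw [List.take_append_of_le_length (by simp [h]), List.take_of_length_le (by simp)]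
  · rw [List.take_of_length_le (by simp; omega), List.take_of_length_le (by omega)]

/-- `u` and `v` lie in one orbit of `M`. -/
def Orb (M : Subgroup G) (u v : List X) : Prop := ∃ h ∈ M, S.wact h u = v

variable {S} {M M' : Subgroup G} {u v w : List X}

theorem Orb.refl (u : List X) : S.Orb M u u := ⟨1, M.one_mem, by simp⟩

theorem Orb.symm (h : S.Orb M u v) : S.Orb M v u := by
  obtain ⟨g, hg, rfl⟩ := h
  exact ⟨g⁻¹, M.inv_mem hg, by simp⟩

theorem Orb.trans (h : S.Orb M u v) (h' : S.Orb M v w) : S.Orb M u w := by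
  obtain ⟨g, hg, rfl⟩ := h
  obtain ⟨k, hk, rfl⟩ := h'
  exact ⟨k * g, M.mul_mem hk hg, by rw [S.wact_mul]⟩

theorem Orb.length_eq (h : S.Orb M u v) : v.length = u.length := by
  obtain ⟨g, hg, rfl⟩ := h
  simp

theorem Orb.mono (h : S.Orb M u v) (hM : M ≤ M') : S.Orb M' u v := by
  obtain ⟨g, hg, rfl⟩ := h
  exact ⟨g, hM hg, rfl⟩

theorem Orb.of_mem {g : G} (hg : g ∈ M) (u : List X) : S.Orb M u (S.wact g u) := ⟨g, hg, rfl⟩

theorem Orb.map (hM : M.Normal) (g : G) (h : S.Orb M u v) :
    S.Orb M (S.wact g u) (S.wact g v) := by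
  obtain ⟨k, hk, rfl⟩ := h
  refine ⟨g * k * g⁻¹, hM.conj_mem k hk g, ?_⟩
  rw [S.wact_mul, S.wact_mul, S.wact_inv_wact]

theorem Orb.take (k : ℕ) (h : S.Orb M u v) : S.Orb M (u.take k) (v.take k) := by
  obtain ⟨g, hg, rfl⟩ := h
  exact ⟨g, hg, by rw [S.wact_take]⟩

theorem orb_conj_iff (hM : M.Normal) (g : G) :
    S.Orb M (S.wact g u) (S.wact g v) ↔ S.Orb M u v := by
  constructor
  · intro h
    have := h.map hM g⁻¹
    simpa using this
  · exact Orb.map hM g

end SelfSim

namespace C2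

variable {G X : Type} [Group G] {S : SelfSim G X}

open SelfSim
open scoped commutatorElement

/-- The set of orbits on the level `n`. -/
def orbs (S : SelfSim G X) (H : Subgroup G) (n : ℕ) : Set (Set (List X)) :=
  (fun w => {v | S.Orb H w v}) '' {w | w.length = n}

lemma orb_set_eq_iff {H : Subgroup G} {u v : List X} :
    {w | S.Orb H u w} = {w | S.Orb H v w} ↔ S.Orb H u v := by
  constructor
  · intro h
    have : v ∈ {w | S.Orb H u w} := by
      rw [h]
      exact Orb.refl v
    exact this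
  · intro h
    ext w
    exact ⟨fun h' => h.symm.trans h', fun h' => h.trans h'⟩

lemma orbs_card {H : Subgroup G} {b n : ℕ} {T : Finset (List X)} (hT : T.card ≤ b)
    (h : ∀ w : List X, w.length = n → ∃ u ∈ T, ∃ h ∈ H, S.wact h u = w) :
    (orbs S H n).Finite ∧ (orbs S H n).ncard ≤ b := by
  classical
  have h1 : orbs S H n ⊆ (T.image fun w => {v | S.Orb H w v} : Finset (Set (List X))) := by
    rintro _ ⟨w, hw, rfl⟩
    obtain ⟨u, hu, huw⟩ := h w hw
    rw [Finset.coe_image]
    refine ⟨u, hu, ?_⟩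
    exact orb_set_eq_iff.2 huw
  refine ⟨(Finset.finite_toSet _).subset h1, ?_⟩
  calc (orbs S H n).ncard ≤ _ := Set.ncard_le_ncard h1 (Finset.finite_toSet _)
    _ = (T.image fun w => {v | S.Orb H w v}).card := Set.ncard_coe_finset _
    _ ≤ T.card := Finset.card_image_le
    _ ≤ b := hT

lemma take_orb [Nonempty X] {H : Subgroup G} {n k : ℕ} (hk : k ≤ n) {w : List X}
    (hw : w.length = n) :
    (List.take k) '' {v | S.Orb H w v} = {v | S.Orb H (w.take k) v} := by
  ext v
  constructor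
  · rintro ⟨u, hu, rfl⟩
    exact Orb.take k hu
  · rintro ⟨g, hg, rfl⟩
    exact ⟨S.wact g w, ⟨g, hg, rfl⟩, S.wact_take g w k⟩

lemma orbs_image [Nonempty X] {H : Subgroup G} {n k : ℕ} (hk : k ≤ n) :
    (fun O : Set (List X) => (List.take k) '' O) '' orbs S H n = orbs S H k := by
  ext O
  constructor
  · rintro ⟨_, ⟨w, hw, rfl⟩, rfl⟩
    refine ⟨w.take k, ?_, ?_⟩
    · simp only [Set.mem_ofPred_eq] at hw ⊢
      rw [List.length_take]
      omega
    · exact (take_orb hk hw).symm
  · rintro ⟨w, hw, rfl⟩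
    simp only [Set.mem_ofPred_eq] at hw
    obtain ⟨v, hv⟩ := exists_word (X := X) (n - k)
    have hwv : (w ++ v).length = n := by rw [List.length_append, hw, hv]; omega
    refine ⟨_, ⟨w ++ v, hwv, rfl⟩, ?_⟩
    show (List.take k) '' {u | S.Orb H (w ++ v) u} = _
    rw [take_orb hk hwv, List.take_append_of_le_length (by omega), List.take_of_length_le
      (by omega)]

/-- From some level on, the orbits do not split any more. -/
lemma exists_stable [Nonempty X] {H : Subgroup G} (hH : S.Open H) :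
    ∃ n₁ : ℕ, ∀ n ≥ n₁, ∀ u v : List X, u.length = n → v.length = n →
      S.Orb H (u.take n₁) (v.take n₁) → S.Orb H u v := by
  obtain ⟨b, hb⟩ := hH
  have hfin : ∀ n, (orbs S H n).Finite ∧ (orbs S H n).ncard ≤ b := by
    intro n
    obtain ⟨T, hT, hT'⟩ := hb n
    exact orbs_card hT hT'
  have hmono : ∀ k n, k ≤ n → (orbs S H k).ncard ≤ (orbs S H n).ncard := by
    intro k n hkn
    rw [← orbs_image hkn]
    exact Set.ncard_image_le (hfin n).1
  -- choose a level with the maximal number of orbits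
  obtain ⟨n₁, hn₁⟩ : ∃ n₁, ∀ n, (orbs S H n).ncard ≤ (orbs S H n₁).ncard := by
    by_contra hcon
    push Not at hcon
    have : ∀ m : ℕ, ∃ n, m ≤ (orbs S H n).ncard := by
      intro m
      induction m with
      | zero => exact ⟨0, Nat.zero_le _⟩
      | succ m ih =>
        obtain ⟨n, hn⟩ := ih
        obtain ⟨n', hn'⟩ := hcon n
        exact ⟨n', by omega⟩
    obtain ⟨n, hn⟩ := this (b + 1)
    have := (hfin n).2
    omega
  refine ⟨n₁, fun n hn u v hu hv huv => ?_⟩
  have hcard : ((fun O : Set (List X) => (List.take n₁) '' O) '' orbs S H n).ncard =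
      (orbs S H n).ncard := by
    rw [orbs_image hn]
    exact le_antisymm (hmono _ _ hn) (hn₁ n)
  have hinj := Set.injOn_of_ncard_image_eq hcard (hfin n).1
  rw [← orb_set_eq_iff]
  apply hinj ⟨u, hu, rfl⟩ ⟨v, hv, rfl⟩
  show (List.take n₁) '' {w | S.Orb H u w} = (List.take n₁) '' {w | S.Orb H v w}
  rw [take_orb hn hu, take_orb hn hv]
  exact orb_set_eq_iff.2 huv

/-- If `h ∈ H` fixes one orbit of `[H, H]` in an orbit of `H` then it fixes all of them. -/
lemma F1 {H : Subgroup G} (hH : H.Normal) {h : G} (hh : h ∈ H) {w w' : List X}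
    (hww' : S.Orb H w w') (hw : S.Orb ⁅H, H⁆ (S.wact h w) w) :
    S.Orb ⁅H, H⁆ (S.wact h w') w' := by
  have hN : (⁅H, H⁆ : Subgroup G).Normal := Subgroup.commutator_normal H H
  obtain ⟨k, hk, rfl⟩ := hww'
  -- `h k w = [h, k] k h w`
  have h1 : S.Orb ⁅H, H⁆ (S.wact k (S.wact h w)) (S.wact h (S.wact k w)) := by
    refine ⟨⁅h, k⁆, Subgroup.commutator_mem_commutator hh hk, ?_⟩
    rw [← S.wact_mul, ← S.wact_mul, ← S.wact_mul]
    congr 1
    simp [commutatorElement_def, mul_assoc]
  exact h1.symm.trans (hw.map hN k)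

lemma orb_append {H' : Subgroup G} {w u : List X} (h : S.Orb H' w (u.take w.length)) :
    ∃ v : List X, S.Orb H' u (w ++ v) ∧ v.length = u.length - w.length := by
  obtain ⟨g, hg, hgw⟩ := h
  refine ⟨(S.wact g⁻¹ u).drop w.length, ⟨g⁻¹, H'.inv_mem hg, ?_⟩, by simp⟩
  conv_lhs => rw [← List.take_append_drop w.length (S.wact g⁻¹ u)]
  rw [S.wact_take, ← hgw, S.wact_inv_wact]

lemma wact_K {g : G} {w : List X} (hg : g ∈ S.K w) (v : List X) :
    S.wact g (w ++ v) = w ++ v := by
  obtain ⟨h1, h2⟩ := S.mem_K.1 hg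
  rw [S.wact_append, h1, h2, S.wact_one]

end C2
end PCF
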