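import Pool.Agent.Work.MP_80ff4e_al_helper41.C2a
import Pool.Agent.Work.MP_80ff4e_al_helper82.C4
import Pool.Agent.Work.MP_80ff4e_al_helper82.D1

/-!
# MP_80ff4e_al: block C5, part 1
-/

set_option autoImplicit false

namespace PCF

namespace C5

variable {G X : Type} [Group G]

open SelfSim
open scoped commutatorElement

/-- What we use of the group in block C5. -/
structure Good (S : SelfSim G X) : Prop where
  faithful : S.Faithful
  selfrep : S.SelfRep
  lev : S.LevTrans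
  /-- C4 -/
  fin : ∀ F J : Subgroup G, Finite F → J.FiniteIndex → (∀ g ∈ J, ∀ f ∈ F, g * f * g⁻¹ ∈ F) → F = ⊥
  /-- C3 -/
  com : ∀ L₁ L₂ : Subgroup G, L₁.Normal → L₂.Normal → L₁ ≠ ⊥ → L₂ ≠ ⊥ → ⁅L₁, L₂⁆ ≠ ⊥
  nt : (⊤ : Subgroup G) ≠ ⊥

lemma der_mono {J J' : Subgroup G} (h : J ≤ J') (r : ℕ) : der J r ≤ der J' r := by
  induction r with
  | zero => exact h
  | succ r ih => exact Subgroup.commutator_mono ih ih

lemma der_antitone (J : Subgroup G) {r s : ℕ} (h : r ≤ s) : der J s ≤ der J r := by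
  induction h with
  | refl => exact le_rfl
  | step h ih =>
    refine le_trans ?_ ih
    rw [der, Subgroup.commutator_le]
    intro a ha b hb
    rw [commutatorElement_def]
    exact mul_mem (mul_mem (mul_mem ha hb) (inv_mem ha)) (inv_mem hb)

lemma good_of_core [Fintype X] (hC3 : Stmt_C3) (hC4 : Stmt_C4) {S : SelfSim G X} (hC : Core S)
    (hG : Nontrivial G) : Good S where
  faithful := hC.faithful
  selfrep := hC.selfrep
  lev := by
    obtain ⟨τ, hτ⟩ := hC.odo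
    intro u v huv
    obtain ⟨k, hk⟩ := hτ u v huv
    exact ⟨τ ^ k, hk⟩
  fin := hC4 G X S hC
  com := by
    intro L₁ L₂ h1 h2 h1' h2'
    obtain ⟨h3, h4⟩ := hC3 G X S hC
    obtain ⟨⟨J₁, -, hJ₁, r₁, hr₁⟩, -⟩ := h3 L₁ h1 h1'
    obtain ⟨⟨J₂, -, hJ₂, r₂, hr₂⟩, -⟩ := h3 L₂ h2 h2'
    have hJ : (J₁ ⊓ J₂).FiniteIndex := inferInstance
    intro h0
    apply h4 (J₁ ⊓ J₂) hJ (max r₁ r₂ + 1)
    rw [eq_bot_iff, ← h0]
    refine Subgroup.commutator_mono ?_ ?_
    · exact ((der_antitone _ (le_max_left _ _)).trans (C4.der_le_gam _ _)).trans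
        ((C4.gam_mono inf_le_left _).trans hr₁)
    · exact ((der_antitone _ (le_max_right _ _)).trans (C4.der_le_gam _ _)).trans
        ((C4.gam_mono inf_le_right _).trans hr₂)
  nt := top_ne_bot

variable {S : SelfSim G X}

/-- A subgroup whose intersection with the stabiliser of `w` is, up to finite index, contained in
`K_w`, and which is normalised by a subgroup of finite index. -/
lemma fin_crit [Finite X] (hS : Good S) {A Q M' : Subgroup G} (hQ : Q.FiniteIndex)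
    (hQA : ∀ q ∈ Q, ∀ a ∈ A, q * a * q⁻¹ ∈ A) (hM' : M'.relIndex A ≠ 0) {w : List X}
    (h : ∀ g ∈ A, g ∈ M' → S.wact g w = w → g ∈ S.K w) :
    ∀ g ∈ A, S.wact g w = w → g ∈ S.K w := by
  set A' := A.comap (S.St w).subtype with hA'
  have h1 : (S.secHom w).ker.relIndex A' ≠ 0 := by
    have h2 : (M'.comap (S.St w).subtype).relIndex A' ≠ 0 :=
      Subgroup.relIndex_comap_ne_zero _ hM'
    have h3 : (M'.comap (S.St w).subtype) ⊓ A' ≤ (S.secHom w).ker := by
      rintro ⟨g, hg⟩ ⟨hg1, hg2⟩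
      exact (S.mem_K.1 (h g hg2 hg1 hg)).2
    rw [← Subgroup.inf_relIndex_right] at h2
    intro h0
    apply h2
    have h4 := Subgroup.relIndex_dvd_of_le_left A' h3
    rw [h0] at h4
    exact Nat.eq_zero_of_zero_dvd h4
  rw [Subgroup.relIndex_ker] at h1
  have hfin : Finite (A'.map (S.secHom w)) := Nat.finite_of_card_ne_zero h1
  have h2 : S.secSub A w = ⊥ := by
    refine hS.fin (S.secSub A w) (S.secSub Q w) hfin (hS.selfrep.secSub_finiteIndex hQ w) ?_
    intro g hg f hf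
    obtain ⟨k, hk, hkw, rfl⟩ := S.mem_secSub.1 hg
    obtain ⟨a, ha, haw, rfl⟩ := S.mem_secSub.1 hf
    refine S.mem_secSub.2 ⟨k * a * k⁻¹, hQA k hk a ha, ?_, ?_⟩
    · have hk' : S.wact k⁻¹ w = w := by
        conv_lhs => rw [← hkw]
        exact S.wact_inv_wact k w
      rw [S.wact_mul, S.wact_mul, hk', haw, hkw]
    · have h3 := S.wsec_conj k a w
      rw [hkw, haw] at h3
      exact h3
  intro g hg hgw
  refine S.mem_K.2 ⟨hgw, ?_⟩
  have : S.wsec g w ∈ S.secSub A w := S.mem_secSub.2 ⟨g, hg, hgw, rfl⟩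
  rw [h2] at this
  exact this

/-- `K_c ∩ St(w) ⊆ K_w`. -/
def InU (S : SelfSim G X) (c w : List X) : Prop := ∀ g ∈ S.K c, S.wact g w = w → g ∈ S.K w

lemma InU.append {c w : List X} (h : InU S c w) (u : List X) : InU S c (w ++ u) :=
  fun g hg hgw => S.K_le_K_append w u (h g hg (S.wact_append_left hgw))

lemma InU.of_append {c u w : List X} (h : InU S (c ++ u) w) : InU S c w :=
  fun g hg hgw => h g (S.K_le_K_append c u hg) hgw

lemma InU.refl (c : List X) : InU S c c := fun _ hg _ => hg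

lemma InU.map {c w : List X} (h : InU S c w) (g : G) : InU S (S.wact g c) (S.wact g w) := by
  intro k hk hkw
  have h1 := S.conj_mem_K hk g⁻¹
  rw [S.wact_inv_wact, inv_inv] at h1
  have h2 := h _ h1 (by rw [S.wact_mul, S.wact_mul, hkw, S.wact_inv_wact])
  have h3 := S.conj_mem_K h2 g
  have h4 : g * (g⁻¹ * k * g) * g⁻¹ = k := by group
  rwa [h4] at h3

lemma InU.of_map {c w : List X} {g : G} (h : InU S (S.wact g c) (S.wact g w)) : InU S c w := by
  have := h.map g⁻¹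
  simpa using this

/-- Criterion for `InU`. -/
lemma InU.of_fin [Finite X] (hS : Good S) {c w : List X} {M' : Subgroup G} (hM' : M'.FiniteIndex)
    (h : ∀ g ∈ S.K c, g ∈ M' → S.wact g w = w → g ∈ S.K w) : InU S c w := by
  refine fin_crit hS (Q := S.St c) (S.St_finiteIndex c) ?_ (M' := M') ?_ h
  · intro q hq a ha
    have := S.conj_mem_K ha q
    rwa [S.mem_St.1 hq] at this
  · exact mt Subgroup.index_eq_zero_of_relIndex_eq_zero hM'.index_ne_zero

/-- Sections of subgroups normalised by `M`. -/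
lemma secSub_normal {M A : Subgroup G} {w : List X} (hw : S.secSub M w = ⊤)
    (hA : ∀ m ∈ M, ∀ a ∈ A, m * a * m⁻¹ ∈ A) : (S.secSub A w).Normal := by
  constructor
  intro f hf g
  have hg : g ∈ S.secSub M w := by rw [hw]; exact Subgroup.mem_top g
  obtain ⟨k, hk, hkw, rfl⟩ := S.mem_secSub.1 hg
  obtain ⟨a, ha, haw, rfl⟩ := S.mem_secSub.1 hf
  refine S.mem_secSub.2 ⟨k * a * k⁻¹, hA k hk a ha, ?_, ?_⟩
  · have hk' : S.wact k⁻¹ w = w := by
      conv_lhs => rw [← hkw]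
      exact S.wact_inv_wact k w
    rw [S.wact_mul, S.wact_mul, hk', haw, hkw]
  · have h3 := S.wsec_conj k a w
    rw [hkw, haw] at h3
    exact h3

/-- Sections of commutators. -/
lemma comm_secSub_le {A B C : Subgroup G} {w : List X}
    (h : ∀ a ∈ A, ∀ b ∈ B, S.wact a w = w → S.wact b w = w → ⁅a, b⁆ ∈ C) :
    ⁅S.secSub A w, S.secSub B w⁆ ≤ S.secSub C w := by
  rw [Subgroup.commutator_le]
  intro x hx y hy
  obtain ⟨a, ha, haw, rfl⟩ := S.mem_secSub.1 hx
  obtain ⟨b, hb, hbw, rfl⟩ := S.mem_secSub.1 hy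
  have h1 : (⁅(⟨a, haw⟩ : S.St w), ⟨b, hbw⟩⁆ : S.St w) ∈ C.comap (S.St w).subtype := by
    show ((⁅(⟨a, haw⟩ : S.St w), ⟨b, hbw⟩⁆ : S.St w) : G) ∈ C
    exact h a ha b hb haw hbw
  refine ⟨_, h1, ?_⟩
  rw [map_commutatorElement]
  rfl

/-- The iterated commutator argument. -/
lemma exists_common [Finite X] (hS : Good S) {n : ℕ} {w : List X}
    (hw : S.secSub (S.LSt n) w = ⊤) (Y : Finset (List X)) (hY : ∀ c ∈ Y, c.length = n)
    (hYU : ∀ c ∈ Y, ¬ InU S c w) :
    ∃ g ∈ S.LSt n, (∀ c ∈ Y, g ∈ S.K c) ∧ S.wact g w = w ∧ S.wsec g w ≠ 1 := by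
  classical
  have hfi : (S.LSt n).FiniteIndex := S.LSt_finiteIndex n
  have key : ∃ A : Subgroup G, A ≤ S.LSt n ∧ (∀ m ∈ S.LSt n, ∀ a ∈ A, m * a * m⁻¹ ∈ A) ∧
      (∀ c ∈ Y, A ≤ S.K c) ∧ S.secSub A w ≠ ⊥ := by
    clear hfi
    induction Y using Finset.induction_on with
    | empty =>
      refine ⟨S.LSt n, le_rfl, fun m hm a ha => (S.LSt n).mul_mem ((S.LSt n).mul_mem hm ha)
        ((S.LSt n).inv_mem hm), ?_, ?_⟩
      · intro c hc
        exact absurd hc (Finset.notMem_empty c)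
      · rw [hw]
        exact hS.nt
    | insert c Y hcY ih =>
      obtain ⟨A, hA1, hA2, hA3, hA4⟩ := ih (fun c hc => hY c (Finset.mem_insert_of_mem hc))
        (fun c hc => hYU c (Finset.mem_insert_of_mem hc))
      have hcn : c.length = n := hY c (Finset.mem_insert_self _ _)
      have hB2 : ∀ m ∈ S.LSt n, ∀ a ∈ S.LSt n ⊓ S.K c, m * a * m⁻¹ ∈ S.LSt n ⊓ S.K c := by
        rintro m hm a ⟨ha1, ha2⟩
        refine ⟨(S.LSt n).mul_mem ((S.LSt n).mul_mem hm ha1) ((S.LSt n).inv_mem hm), ?_⟩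
        have := S.conj_mem_K ha2 m
        rwa [hm c hcn] at this
      have hB : S.secSub (S.LSt n ⊓ S.K c) w ≠ ⊥ := by
        intro h0
        apply hYU c (Finset.mem_insert_self _ _)
        refine InU.of_fin hS (M' := S.LSt n) (S.LSt_finiteIndex n) ?_
        intro g hg hgn hgw
        refine S.mem_K.2 ⟨hgw, ?_⟩
        have : S.wsec g w ∈ S.secSub (S.LSt n ⊓ S.K c) w :=
          S.mem_secSub.2 ⟨g, ⟨hgn, hg⟩, hgw, rfl⟩
        rw [h0] at this
        exact this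
      have h1 := hS.com _ _ (secSub_normal hw hA2) (secSub_normal hw hB2) hA4 hB
      refine ⟨A ⊓ (S.LSt n ⊓ S.K c), inf_le_left.trans hA1, ?_, ?_, ?_⟩
      · rintro m hm a ⟨ha1, ha2⟩
        exact ⟨hA2 m hm a ha1, hB2 m hm a ha2⟩
      · intro c' hc'
        rcases Finset.mem_insert.1 hc' with rfl | hc'
        · exact inf_le_right.trans inf_le_right
        · exact inf_le_left.trans (hA3 c' hc')
      · intro h0
        apply h1
        rw [eq_bot_iff, ← h0]
        refine comm_secSub_le ?_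
        intro a ha b hb _ _
        rw [commutatorElement_def]
        refine ⟨?_, ?_⟩
        · have h2 := hA2 b hb.1 a⁻¹ (A.inv_mem ha)
          have h3 : a * b * a⁻¹ * b⁻¹ = a * (b * a⁻¹ * b⁻¹) := by group
          rw [h3]
          exact A.mul_mem ha h2
        · exact (S.LSt n ⊓ S.K c).mul_mem (hB2 a (hA1 ha) b hb) ((S.LSt n ⊓ S.K c).inv_mem hb)
  obtain ⟨A, hA1, -, hA3, hA4⟩ := key
  rw [Subgroup.ne_bot_iff_exists_ne_one] at hA4
  obtain ⟨⟨x, hx⟩, hx1⟩ := hA4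
  obtain ⟨g, hg, hgw, rfl⟩ := S.mem_secSub.1 hx
  exact ⟨g, hA1 hg, fun c hc => hA3 c hc hg, hgw, fun h => hx1 (Subtype.ext h)⟩

end C5
end PCF
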